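import Pool.Agent.helper63.TI.SpecP
import Pool.Agent.helper85.AQ.SpecB

/-!
# Project ti (MP_3703a7_ag): specification, part A: the proofs of `PL1_stmt` and `PL2_stmt` (`SpecP.lean`)

THE PROOF. (1) The `l`-adic image of Galois is large (project gj): every family `Y_i ∈ su(V_l(J_i))` is approximated: for all large `N` there is an automorphism `σ` in any subgroup of finite exponent, fixing all roots of unity, with `σ = 1 + l^N Y_i` modulo `l^(N+m)` on `T_l(J_i)` for all `i` (APD). (2) Choose `Y` generic (SUY); for the average `∑ φ^(-j) Y φ^j`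
the eigenvalues on `E_(i,r)` in the eigenbasis of `φ` are multiples of the diagonal entries of `Y` (AVG), so they satisfy no linear relation with small integral coefficients. (3) An operator close to `1 + l^N Y'` or `φ^s (1 + l^N Y')` has eigenvalues close to `1 + l^N y` (PER), so without multiplicative relations with small exponents (REL). (4) The density theorem FDN gives a
Frobenius element close to it. (5) TRF: the eigenvalues on `V_q` are the same algebraic numbers, with the same multiplicities.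

Rules: every `XX_stmt` is proved in `Pool/Agent/<seat>/TI/XX.lean`: `import Pool.Agent.helper63.TI.SpecA`, `set_option autoImplicit false`, `namespace Pool.Agent.TI`, the open lines of this file, `noncomputable section`,
`theorem XX (h : YY_stmt) ... : XX_stmt`; hypotheses: other statements of the project ti (not circularly) and ANY proved statement of the older projects (gj, tk, tq, td, tfq, fj; `AQ.BGP_stmt`, `AQ.BRF_stmt`, `AQ.LDE_stmt`, `AQ.LSK_stmt`, `AQ.LMU_stmt` of project aq).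
Auxiliary lemmas are prefixed `XX_`. No sorry, no double quotes, no `congr!`, no `convert`. If a statement is false or awkward: tell helper63 at once.
-/

set_option autoImplicit false

namespace Pool.Agent.TI

open Polynomial NumberField Pool.Agent.GJ Pool.Agent.TK Pool.Agent.TQ Pool.Agent.TFQ Pool.Agent.TD Pool.Agent.AQ
open Pool.Agent.FJ (VT Om chiO IsFrobO rf rs)
open scoped TensorProduct

noncomputable section

/-! ## Approximation in the group -/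

/-- the families `Y` which are approximated by elements of the subgroup `G'` -/
def Ap {q : ℕ} [Fact q.Prime] {k : ℕ} {V : Fin k → Type} [∀ i, AddCommGroup (V i)] [∀ i, Module ℚ_[q] (V i)] {G : Type} [Group G]
    (T : ∀ i, AddSubgroup (V i)) (ρ : ∀ i, G →* Module.End ℚ_[q] (V i)) (G' : Subgroup G) (Y : ∀ i, Module.End ℚ_[q] (V i)) : Prop :=
  ∀ m : ℕ, ∃ N0 : ℕ, ∀ N ≥ N0, ∃ g ∈ G', ∀ i, Nr (T i) (ρ i g) (Y i) N m

/-- NRA (short-medium). CALCULUS. For every `Y` there is `c` with `q^c Y T ⊂ T` (basis of `T`). (1) `q^(N+m) t' = q^(N+m') (q^(m-m') t')`. (2) `N ≥ c`. (3) `q^c Y T ⊂ T`, `q^c Y' T ⊂ T`, `N ≥ m + 2 c`: `H' t = t + q^N Y' t + q^(N+m) t1`, `H t = t + q^N Y t + q^(N+m) t2`, `H (Y' t) = q^(-c) H (q^c Y' t) = Y' t + q^N Y Y' t + q^(N+m-c) t3`: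
`H H' t = t + q^N (Y + Y') t + (q^(N+m) t2 + q^(2N) Y Y' t + q^(2N+m-c) t3 + q^(N+m) H t1)`, and `q^(2N) Y Y' t ∈ q^(2N-2c) T`, `H t1 ∈ T`. (4) `P' H P t = P' (P t + q^N Y P t + q^(N+m) t1)`. (For `Y' = 0`: (3) says that `H` may be multiplied, on both sides, by an operator which is `1` modulo `q^(N+m)`.) -/
def NRA_stmt : Prop := ∀ (q : ℕ) [Fact q.Prime] (V : Type) [AddCommGroup V] [Module ℚ_[q] V] (T : AddSubgroup V), Lat q T →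
  (∀ (H Y : V →ₗ[ℚ_[q]] V) (N m m' : ℕ), m' ≤ m → Nr T H Y N m → Nr T H Y N m') ∧
  (∀ Y : V →ₗ[ℚ_[q]] V, ∃ N0 : ℕ, ∀ N ≥ N0, ∀ (H : V →ₗ[ℚ_[q]] V) (m : ℕ), Nr T H Y N m → ∀ t ∈ T, H t ∈ T) ∧
  (∀ (Y Y' : V →ₗ[ℚ_[q]] V) (m : ℕ), ∃ N0 : ℕ, ∀ N ≥ N0, ∀ H H' : V →ₗ[ℚ_[q]] V, Nr T H Y N m → Nr T H' Y' N m →
    Nr T (H ∘ₗ H') (Y + Y') N m) ∧
  ∀ (H Y P P' : V →ₗ[ℚ_[q]] V) (N m : ℕ), (∀ t ∈ T, P' t ∈ T) → (∀ t ∈ T, P t ∈ T) → P' ∘ₗ P = LinearMap.id → Nr T H Y N m →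
    Nr T (P' ∘ₗ H ∘ₗ P) (P' ∘ₗ Y ∘ₗ P) N m

/-- AP1 (medium). SUMS AND MULTIPLES. `0`: `g = 1`. Sum: NRA (3), finitely many `i` (maximum of the numbers). Multiples: `c = q^(-a) z`, `z ∈ ℤ_q`. `g0` for `Y` at the level `N - a` with the precision `m + a + b`: `ρ(g0) = 1 + q^(N-a) Y` modulo `q^(N+m+b)`. `z0 ∈ ℕ` with `z0 = z` modulo `q^(m+a+b)`, `q^b Y T ⊂ T`. `g = g0^(z0)`: by induction on `j` with NRA (3)
(the number `N0` there must not depend on `j`: prove the version `Nr H (j Y)`, `Nr H' Y` implies `Nr (H H') ((j+1) Y)` for `N ≥ m + 2 b` as in the proof of NRA, where the integer `j` has norm at most one) `ρ(g0^j) = 1 + q^(N-a) j Y` modulo `q^(N+m+b)`; and `q^(N-a) z0 Y = q^(N-a) z Y = q^N c Y` modulo `q^(N-a) q^(m+a+b) Y T ⊂ q^(N+m) T`. -/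
def AP1_stmt : Prop := ∀ (q : ℕ) [Fact q.Prime] (k : ℕ) (V : Fin k → Type) [∀ i, AddCommGroup (V i)] [∀ i, Module ℚ_[q] (V i)] (G : Type) [Group G]
  (T : ∀ i, AddSubgroup (V i)) (ρ : ∀ i, G →* Module.End ℚ_[q] (V i)) (G' : Subgroup G), (∀ i, Lat q (T i)) →
  Ap T ρ G' 0 ∧ (∀ Y Y' : ∀ i, Module.End ℚ_[q] (V i), Ap T ρ G' Y → Ap T ρ G' Y' → Ap T ρ G' (Y + Y')) ∧
  ∀ (c : ℚ_[q]) (Y : ∀ i, Module.End ℚ_[q] (V i)), Ap T ρ G' Y → Ap T ρ G' (c • Y)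

/-- AP2 (medium). BRACKETS. `q^c Y T ⊂ T`, `q^c Y' T ⊂ T` for all `i`. `N1 = N / 2`, `N2 = N - N1`; `g` for `Y` at the level `N1`, `g'` for `Y'` at the level `N2`, both with the precision `m + c`. `A = ρ(g) - 1 = q^(N1) Y + q^(N1+m+c) E`, `B = ρ(g') - 1 = q^(N2) Y' + q^(N2+m+c) E'` (`E T ⊂ T`: `E = q^(-(N1+m+c)) (ρ(g) - 1 - q^(N1) Y)`).
`g g' g⁻¹ g'⁻¹`: `ρ(g g' g⁻¹ g'⁻¹) - 1 = (A B - B A) ρ((g' g)⁻¹)`; `A B - B A = q^N [Y, Y'] + q^(N+m) E''` on `T`, and `ρ((g' g)⁻¹) = 1` modulo `q^(m + 2 c)` on `T` for `N` large (`ρ(g') ρ(g) = 1` modulo `q^(min(N1, N2) - c)` and it maps `T` onto `T`: `ρ(g⁻¹)` is the inverse of `ρ(g) = 1 + q (..)`, an injective map of the lattice `T` with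
`T = ρ(g) T + q T`, Nakayama; or: `t = ρ(g) u` with `u = ρ(g⁻¹) t ∈ q^(-e) T`, `e` minimal: if `e > 0` then `t - u = (ρ(g) - 1) u ∈ q^(1-e) T`, so `u ∈ q^(1-e) T`). So `ρ(..) = 1 + q^N [Y, Y']` modulo `q^(N+m)`. -/
def AP2_stmt : Prop := ∀ (q : ℕ) [Fact q.Prime] (k : ℕ) (V : Fin k → Type) [∀ i, AddCommGroup (V i)] [∀ i, Module ℚ_[q] (V i)] (G : Type) [Group G]
  (T : ∀ i, AddSubgroup (V i)) (ρ : ∀ i, G →* Module.End ℚ_[q] (V i)) (G' : Subgroup G), (∀ i, Lat q (T i)) →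
  ∀ Y Y' : ∀ i, Module.End ℚ_[q] (V i), Ap T ρ G' Y → Ap T ρ G' Y' → Ap T ρ G' (Y * Y' - Y' * Y)

/-- AP3 (short). LOGARITHMS. `g^(m0) ∈ G'`, `m0 > 0`. TQ.NA1_stmt (3): `LogQ (T i) (ρ i g ^ m0) (m0 A_i)`: with `N = s ≥ m` the element `g^(m0 q^N)` shows `Ap (m0 A)` (`q^(2N) t' = q^(N+m) (q^(N-m) t')`); AP1 (3) for `c = m0⁻¹`. -/
def AP3_stmt : Prop := ∀ (q : ℕ) [Fact q.Prime] (k : ℕ) (V : Fin k → Type) [∀ i, AddCommGroup (V i)] [∀ i, Module ℚ_[q] (V i)] (G : Type) [Group G]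
  (T : ∀ i, AddSubgroup (V i)) (ρ : ∀ i, G →* Module.End ℚ_[q] (V i)) (G' : Subgroup G), (∀ i, Lat q (T i)) →
  (∀ g : G, ∃ m : ℕ, 0 < m ∧ g ^ m ∈ G') →
  ∀ (g : G) (A : ∀ i, Module.End ℚ_[q] (V i)), (∀ i, LogQ (T i) (ρ i g) (A i)) → Ap T ρ G' A

/-- BIG (medium). THE `l`-ADIC MONODROMY THEOREM, in terms of logarithms. Copy the proof of `SUPG` in `Pool/Agent/helper39/GJ/U11.lean` (this file may be imported; the hypotheses of `SUPG` are proved statements of project gj) with `M` in the place of `S9_M hL10 D X`. `GJ.L9_stmt`, `GJ.T3_stmt` need only: `VA D l i` is finite dimensional of dimension `n_i (l - 1)` (from the basis in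
`IsOK.free`), `IsTh`. The last hypothesis of `S4` for `k ≥ max k1 (2 (l - 1))` (`GJ.S5_stmt` is replaced as follows): `σ ∈ ⁅⁅G, G⁆, ⁅G, G⁆⁆`, `Lead k (galA σ - 1) S_i`; `U11_comm`: `σ` fixes all roots of unity, so `χ(σ) = 1` (`GJ.T6_stmt`: `chiO l` is a homomorphism to `ℚ_lˣ`, trivial on commutators) and `galA σ` preserves `E_i`; `GJ.L8_stmt`: `A_i`, `Lead k A_i S_i`, `Skew`, `h^(l^j) = 1 + l^j B_j`, `A t - B_j t ∈ l^j T`:
so `h^(l^j) t = t + l^j A t + l^(2j) t'` (`LogQ.log`); `LogQ.one`: `(h - 1) t = π^k t'`, `k ≥ 2 (l - 1)`, `π^(l-1) T ⊂ l T` (`GJ.L1_stmt`). `(P i).T = TZ D l i` as sets (`IsTP.mem`). So `A ∈ M` by the second hypothesis on `M`. -/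
def BIG_stmt : Prop := ∀ (l : ℕ) [Fact l.Prime], l ≠ 2 → ∀ D : Dat l, D.Ind → D.Sep →
  ∀ θ : ∀ i, ExteriorAlgebra ℚ_[l] (VA D l i), TQ.IsOK D θ →
  ∀ M : Submodule ℚ_[l] (∀ i, Module.End ℚ_[l] (VA D l i)), (∀ A ∈ M, ∀ A' ∈ M, A * A' - A' * A ∈ M) →
  (∀ (σ : Om ≃+* Om) (h : D.Fix σ), (∀ (N : ℕ) (x : Om), 0 < N → x ^ N = 1 → σ x = x) →
    ∀ A : ∀ i, Module.End ℚ_[l] (VA D l i), (∀ i, LogQ (TZ D l i) (galA l h i) (A i)) → A ∈ M) →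
  ∀ Y : ∀ i, Module.End ℚ_[l] (VA D l i), (∀ i, TQ.IsSuA (θ i) (Y i)) → Y ∈ M

/-- APD (short-medium). APPROXIMATION. `R` = the group of the `σ` with `D.Fix σ` which fix all roots of unity (as a type); `ρ i : R →* End`, `σ ↦ galA` (TQ.NB1_stmt); `T i = TZ D l i` is a lattice (NB1); `G' = N'.subgroupOf R`. `M = {Y | Ap T ρ G' Y}` is a subspace (AP1), closed under brackets (AP2), and it contains the logarithms (AP3). BIG. -/
def APD_stmt : Prop := ∀ (l : ℕ) [Fact l.Prime], l ≠ 2 → ∀ D : Dat l, D.Ind → D.Sep →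
  ∀ θ : ∀ i, ExteriorAlgebra ℚ_[l] (VA D l i), TQ.IsOK D θ →
  ∀ N' : Subgroup (Om ≃+* Om), (∀ σ : Om ≃+* Om, ∃ m : ℕ, 0 < m ∧ σ ^ m ∈ N') →
  ∀ Y : ∀ i, Module.End ℚ_[l] (VA D l i), (∀ i, TQ.IsSuA (θ i) (Y i)) →
  ∀ m : ℕ, ∃ N0 : ℕ, ∀ N ≥ N0, ∃ (σ : Om ≃+* Om) (h : D.Fix σ), σ ∈ N' ∧ (∀ (N : ℕ) (x : Om), 0 < N → x ^ N = 1 → σ x = x) ∧
    ∀ i, Nr (TZ D l i) (galA l h i) (Y i) N m

/-! ## Averages -/

/-- `∑_(j < s') P'^j Y P^j` -/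
def av {q : ℕ} [Fact q.Prime] {V : Type} [AddCommGroup V] [Module ℚ_[q] V] (P P' Y : Module.End ℚ_[q] V) (s' : ℕ) : Module.End ℚ_[q] V :=
  ∑ j ∈ Finset.range s', P' ^ j * Y * P ^ j

/-- CNJ (medium). THE ELEMENT `g_s = φ^(-s) (φ h)^s`. `g_0 = 1`, `g_(s+1) = φ⁻¹ g_s φ h`. `D.Fix`: `φ` permutes the branch points of every curve. On `V_l(J_i)`: `galA g_(s+1) = P' (galA g_s) P (galA h)`, `P = galP φ`, `P' = galP φ⁻¹` (the left inverse of `P` is unique as `P` is bijective; AQ.BGP_stmt: homomorphism, equal to `galA` if `D.Fix`, preserves `TZ`; `PF D h` with the identity permutation).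
Induction on `s`: `Nr (galA g_s) (av P P' Y s) N m` for `N ≥ N0(s)`: NRA (4) and (3), `av P P' Y (s + 1) = P' (av P P' Y s) P + Y`. Uses NRA, BGP, TQ.NB1_stmt (`Lat`; finite dimension from `hfin`). -/
def CNJ_stmt : Prop := ∀ (l : ℕ) [Fact l.Prime] (D : Dat l) (i : Fin D.k), FiniteDimensional ℚ_[l] (VA D l i) → ∀ (φ : Om ≃+* Om) (hφ : PF D φ)
  (P' Y : Module.End ℚ_[l] (VA D l i)), P' * galP l hφ i = 1 → ∀ s' m : ℕ,
  ∃ N0 : ℕ, ∀ N ≥ N0, ∀ (h : Om ≃+* Om) (hh : D.Fix h), (∀ x : Om, x ^ l = 1 → h x = x) → Nr (TZ D l i) (galA l hh i) Y N m →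
    ∃ hg : D.Fix ((φ ^ s')⁻¹ * (φ * h) ^ s'), Nr (TZ D l i) (galA l hg i) (av (galP l hφ i) P' Y s') N m

/-- AVG (short). `bs` is compatible with products and sums (`LinearMap.baseChange_mul`, ..). `bs P' u_t = ξ_t⁻¹ u_t` (`ξ_t ≠ 0`). `bs (P'^j Y P^j) u_t = ∑_t' y_t't (ξ_t / ξ_t')^j u_t'`; for `t' ≠ t`: `x = ξ_t / ξ_t' ≠ 1`, `x^n = 1`, so `∑_(j < s') x^j = (x^s' - 1) / (x - 1) = 0`. -/
def AVG_stmt : Prop := ∀ (q : ℕ) [Fact q.Prime] (V : Type) [AddCommGroup V] [Module ℚ_[q] V] (P P' Y : Module.End ℚ_[q] V) (n : ℕ)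
  (κ : PadicAlgCl q) (ξ : Fin n → PadicAlgCl q) (u : Fin n → PadicAlgCl q ⊗[ℚ_[q]] V) (y : Fin n → Fin n → PadicAlgCl q),
  P' * P = 1 → κ ≠ 0 → Function.Injective ξ → (∀ t, ξ t ^ n = κ) → (∀ t, bs P (u t) = ξ t • u t) → (∀ t, bs Y (u t) = ∑ t', y t' t • u t') →
  ∀ s' : ℕ, n ∣ s' → ∀ t, bs (av P P' Y s') (u t) = ((s' : PadicAlgCl q) * y t t) • u t

/-! ## Eigenvalues -/

/-- EGV (medium). EIGENVALUES ARE CONTINUOUS at a diagonal operator with different eigenvalues. `d = min_(t ≠ t') |y_t - y_t'| > 0` (`n ≥ 2`), `ε' = min(ε, d / 2)`. The characteristic polynomial of `g` is `∏_j (X - η_j)` (`Ω` algebraically closed). Its value at `y_t` is `det (y_t - G)`, `G = diag(y) + M` the matrix of `g`, `|M_ij| ≤ δ`: `det (y_t - diag(y) - M)` is a polynomial in the entries of `M`,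
which vanishes for `M = 0`: so it is at most `C δ` for `δ ≤ 1` (expand the product over `i` of `a_(π i, i) - M_(π i, i)`, or continuity of the determinant). So `∏_j |y_t - η_j| ≤ C δ < ε'^n` for `δ` small, and `|y_t - η_j| < ε'` for some `j = j(t)`. `j` is injective, so bijective: the `η_(j(t))` are `n` different eigenvalues, with eigenvectors `e_t`
(linearly independent, a basis). `n = 0`: trivial. -/
def EGV_stmt : Prop := ∀ (Ω : Type) [NormedField Ω] [IsAlgClosed Ω] (n : ℕ) (y : Fin n → Ω), Function.Injective y → ∀ ε : ℝ, 0 < ε → ∃ δ : ℝ, 0 < δ ∧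
  ∀ (U : Type) [AddCommGroup U] [Module Ω U] (v : Module.Basis (Fin n) Ω U) (g : U →ₗ[Ω] U),
  (∀ i j, ‖v.repr (g (v j)) i - (if i = j then y j else 0)‖ ≤ δ) →
  ∃ (e : Module.Basis (Fin n) Ω U) (η : Fin n → Ω), (∀ t, g (e t) = η t • e t) ∧ (∀ t, ‖η t - y t‖ < ε)

/-- PER (medium). PERTURBATION. `T` has the basis `b_j` (`Lat`); `E = q^(-(N+m)) (H' - 1 - q^N Y)` with `H' = Φ⁻¹ H` (`Φ` is injective, `V` is finite dimensional: bijective), so `E T ⊂ T`: the matrix of `E` in the basis `b` has entries of norm at most one (in `ℚ_q`, so also in `Ω`: the norm of `PadicAlgCl q` extends the norm of `ℚ_q`). `bs H'`, `bs Y` preserve `U` (`bs Φ⁻¹ w = κ⁻¹ w` for `w ∈ U`), so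
`bs E` does, and its matrix in the basis `v` of `U` has entries at most `C`, which depends only on `v`, `b`: `v_t = ∑ x_tj (1 ⊗ b_j)`, and the coordinates in the basis `v` are the restrictions of linear forms on `Ω ⊗ V`, bounded by a constant times the maximum of the coordinates in the basis `1 ⊗ b` (the norm of `Ω` is nonarchimedean, or sums of at most `dim V` terms). The operator
`q^(-N) (H' - 1)` on `U` is `Y + q^m E` with matrix `diag(y) + q^m (..)`: EGV, `|q^m| C ≤ δ` for `m` large: `e`, `η`. `bs H e_t = bs Φ (1 + q^N η_t) e_t = κ (1 + q^N η_t) e_t`. Uses EGV. -/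
def PER_stmt : Prop := ∀ (q : ℕ) [Fact q.Prime] (V : Type) [AddCommGroup V] [Module ℚ_[q] V] (T : AddSubgroup V), Lat q T →
  ∀ (U : Submodule (PadicAlgCl q) (PadicAlgCl q ⊗[ℚ_[q]] V)) (n : ℕ) (v : Module.Basis (Fin n) (PadicAlgCl q) U) (Φ Y : V →ₗ[ℚ_[q]] V)
  (κ : PadicAlgCl q) (y : Fin n → PadicAlgCl q), Function.Injective Φ → κ ≠ 0 → (∀ w ∈ U, bs Φ w = κ • w) →
  (∀ t, bs Y (v t : PadicAlgCl q ⊗[ℚ_[q]] V) = y t • (v t : PadicAlgCl q ⊗[ℚ_[q]] V)) → Function.Injective y → ∀ ε : ℝ, 0 < ε →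
  ∃ m : ℕ, ∀ (N : ℕ) (H : V →ₗ[ℚ_[q]] V), (∀ t ∈ T, ∃ t' ∈ T, H t = Φ (t + (q : ℚ_[q]) ^ N • Y t + (q : ℚ_[q]) ^ (N + m) • t')) →
    (∀ w ∈ U, bs H w ∈ U) → ∃ (e : Module.Basis (Fin n) (PadicAlgCl q) U) (η : Fin n → PadicAlgCl q),
      (∀ t, bs H (e t : PadicAlgCl q ⊗[ℚ_[q]] V) = (κ * (1 + (q : PadicAlgCl q) ^ N * η t)) • (e t : PadicAlgCl q ⊗[ℚ_[q]] V)) ∧ ∀ t, ‖η t - y t‖ < ε

/-- ELN (short). EIGENLINES. `bs F` commutes with `bs (F^v) = (bs F)^v`, so `(bs F)^v (bs F e_t) = μ_t bs F e_t`; the `μ_t` are different, so `bs F e_t ∈ U` is a multiple of `e_t` (coordinates in the basis `e`). -/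
def ELN_stmt : Prop := ∀ (q : ℕ) [Fact q.Prime] (V : Type) [AddCommGroup V] [Module ℚ_[q] V] (F : Module.End ℚ_[q] V) (v : ℕ)
  (U : Submodule (PadicAlgCl q) (PadicAlgCl q ⊗[ℚ_[q]] V)) (n : ℕ) (e : Module.Basis (Fin n) (PadicAlgCl q) U) (μ : Fin n → PadicAlgCl q), Function.Injective μ →
  (∀ w ∈ U, bs F w ∈ U) → (∀ t, bs (F ^ v) (e t : PadicAlgCl q ⊗[ℚ_[q]] V) = μ t • (e t : PadicAlgCl q ⊗[ℚ_[q]] V)) →
  ∃ c : Fin n → PadicAlgCl q, ∀ t, c t ^ v = μ t ∧ bs F (e t : PadicAlgCl q ⊗[ℚ_[q]] V) = c t • (e t : PadicAlgCl q ⊗[ℚ_[q]] V)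

/-- ROU (short). `(1 + z)^M - 1 = M z (1 + ..)`. `|z| ≤ |q|^2`. For `M` prime to `q`: `(1 + z)^M - 1 = M z + ∑_(i ≥ 2) C(M, i) z^i`, `|z^i| < |z|` (`z ≠ 0`), `|M| = 1`. For `M = q`: `q z + ∑_(1 < i < q) C(q, i) z^i + z^q`, `|C(q, i) z^i| ≤ |q| |z|^2 < |q z|`, `|z^q| ≤ |z| |z|^(q-1) ≤ |z| |q|^2 < |q z|`. The result has the same form (`|(1 + z)^M - 1| = |M| |z| ≤ |q|^2`): induction on the
number of prime factors of `M`. (The norm is nonarchimedean: `PadicAlgCl.isNonarchimedean`, `IsUltrametricDist`; `IsNonarchimedean` lemmas: the norm of a sum with one dominant term.) -/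
def ROU_stmt : Prop := ∀ (q : ℕ) [Fact q.Prime] (z : PadicAlgCl q), ‖z‖ ≤ ‖(q : PadicAlgCl q)‖ ^ 2 → ∀ M : ℕ, 0 < M →
  ‖(1 + z) ^ M - 1‖ = ‖(M : PadicAlgCl q)‖ * ‖z‖

/-- REL (medium). NO RELATIONS. `d > 0` = the minimum of the `|∑ k_i y_i|` which are not zero, over the finitely many `k` with `|k_i| ≤ B` (`d = 1` if there are none); `R = 1 + max |y_i|`. `ε = min(1, d / 2)`; `N ≥ N1`: `|q^N| R^2 ≤ |q|^2`, `|q^N| R^2 < d / 2`. `|η_i| ≤ R`. `(1 + q^N η)^k = 1 + q^N k η + z`, `|z| ≤ |q^N|^2 R^2` for every integer `k`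
(`k ≥ 0`: induction or the binomial formula; `k < 0`: the inverse), `c^(c') = 1 + z'`, `|z'| ≤ |c - 1| ≤ |q^N| ε`; the product of these: `1 + q^N (∑ k_i η_i) + z''`, `|z''| ≤ max (|q^N|^2 R^2, |q^N| ε)`; `∑ k_i η_i = ∑ k_i y_i + O(ε)` (`|k_i| ≤ 1`). So the product is `1 + q^N w`, `|w - ∑ k_i y_i| < d`, `|w| = |∑ k_i y_i| ≠ 0`; and `|q^N w| ≤ |q|^2`: ROU. -/
def REL_stmt : Prop := ∀ (q : ℕ) [Fact q.Prime] (ι : Type) [Fintype ι] (y : ι → PadicAlgCl q) (B : ℕ),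
  ∃ (ε : ℝ) (N1 : ℕ), 0 < ε ∧ ∀ N ≥ N1, ∀ (η : ι → PadicAlgCl q) (c : PadicAlgCl q), (∀ i, ‖η i - y i‖ < ε) →
  ‖c - 1‖ ≤ ‖(q : PadicAlgCl q) ^ N‖ * ε → ∀ (k : ι → ℤ) (c' : ℤ) (M : ℕ), (∀ i, |k i| ≤ B) → 0 < M →
    ∑ i, (k i : PadicAlgCl q) * y i ≠ 0 → ((∏ i, (1 + (q : PadicAlgCl q) ^ N * η i) ^ k i) * c ^ c') ^ M ≠ 1

/-! ## Generic elements of `su` -/

/-- DES (short-medium). DESCENT OF OPERATORS. `A` is determined by the vectors `A (1 ⊗ b_j) ∈ Ω ⊗ V`, `b` a basis of `V`; their finitely many coordinates span a finite dimensional `k`-subspace of `Ω` with basis `c_j`. (2) `∑ c_j ⊗ w_j = 0` implies `w_j = 0` (coordinates in a basis of `W`: `∑ c_j (w_j)_s = 0`). -/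
def DES_stmt : Prop := ∀ (k Ω V : Type) [Field k] [Field Ω] [Algebra k Ω] [AddCommGroup V] [Module k V] [FiniteDimensional k V],
  (∀ A : Ω ⊗[k] V →ₗ[Ω] Ω ⊗[k] V, ∃ (m : ℕ) (c : Fin m → Ω) (A' : Fin m → (V →ₗ[k] V)), LinearIndependent k c ∧
    A = ∑ j, c j • LinearMap.baseChange Ω (A' j)) ∧
  ∀ (m : ℕ) (c : Fin m → Ω) (w : Fin m → V), LinearIndependent k c → ∑ j, c j ⊗ₜ[k] w j = 0 → ∀ j, w j = 0

/-- SPN (medium). THE OPERATORS OVER `k` SPAN. `E'` = the form on `Ω ⊗ V` with `E'(a ⊗ x, b ⊗ y) = a b E(x, y)` (`LinearMap.BilinForm.baseChange` or `LinearMap.mk₂`): nondegenerate (the matrix in the basis `1 ⊗ b` is the one of `E`), `E'(x, y) = - E'(y, x)`, invariant under `1 ⊗ Z` (check on pure tensors). AQ.LDE_stmt: `Dec`; AQ.LSK_stmt (1): the operator `A` with `CS`, `A = N` on `E_s`, `Only`.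
`tr((1 ⊗ Z)^i A) = 0`: on `E_s` the trace is `ζ^(s i) tr N = 0`; on `E_(l-s)`, with dual bases `v`, `v'` (LSK (3)): `E'(A v_a, v'_b) = - E'(v_a, A v'_b)`, so the diagonal entries of `A` on `E_(l-s)` are minus those of `N`, and the trace is `- ζ^(-s i) tr N = 0`; zero on the other eigenspaces (`Dec`: the trace is the sum; `LinearMap.trace_eq_sum_trace_restrict` or a basis of eigenvectors).
DES: `A = ∑ c_j • 1 ⊗ A_j`, `c_j` independent over `k`. `A (1 ⊗ Z) = (1 ⊗ Z) A` on `1 ⊗ x`: `∑ c_j ⊗ (A_j Z x - Z A_j x) = 0`, so `A_j Z = Z A_j`; `E'(A (1 ⊗ x), 1 ⊗ y) + E'(1 ⊗ x, A (1 ⊗ y)) = ∑ c_j (E(A_j x, y) + E(x, A_j y))`: so `A_j` is skew; `∑ c_j tr(Z^i A_j) = 0` (`LinearMap.trace_baseChange`): the traces are zero. -/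
def SPN_stmt : Prop := ∀ (k Ω V : Type) [Field k] [CharZero k] [Field Ω] [CharZero Ω] [Algebra k Ω] [AddCommGroup V] [Module k V] [FiniteDimensional k V]
  (l n : ℕ), l.Prime → l ≠ 2 → ∀ (Z : Module.End k V) (v : Fin n → V) (b : Module.Basis (Fin n × Fin (l - 1)) k V), (∀ i j, b (i, j) = (Z ^ (j : ℕ)) (v i)) →
  ∑ i ∈ Finset.range l, Z ^ i = 0 → ∀ ζ : Ω, IsPrimitiveRoot ζ l →
  ∀ E : V →ₗ[k] V →ₗ[k] k, (∀ x, (∀ y, E x y = 0) → x = 0) → (∀ x, E x x = 0) → (∀ x y, E (Z x) (Z y) = E x y) →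
  ∀ s : ℕ, 0 < s → s < l → ∀ N : eg (LinearMap.baseChange Ω Z) ζ s →ₗ[Ω] eg (LinearMap.baseChange Ω Z) ζ s, LinearMap.trace Ω _ N = 0 →
  ∃ (m : ℕ) (c : Fin m → Ω) (A : Fin m → (V →ₗ[k] V)),
    (∀ j, A j ∘ₗ Z = Z ∘ₗ A j ∧ (∀ x y, E (A j x) y + E x (A j y) = 0) ∧ ∀ i : ℕ, LinearMap.trace k V ((Z ^ i : Module.End k V) ∘ₗ A j) = 0) ∧
    (∀ x : eg (LinearMap.baseChange Ω Z) ζ s, ∑ j, c j • LinearMap.baseChange Ω (A j) (x : Ω ⊗[k] V) = N x) ∧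
    ∀ r : ℕ, 0 < r → r < l → r ≠ s → r ≠ l - s → ∀ x ∈ eg (LinearMap.baseChange Ω Z) ζ r, ∑ j, c j • LinearMap.baseChange Ω (A j) x = 0

/-- SUY (medium). A GENERIC ELEMENT. `W` = the `ℚ_l`-space of the families `Y` with `IsSuA (θ i) (Y i)` for all `i` (a subspace: the conditions are linear, `dX` is additive: `GJ.L10_stmt` or directly). `Y_i` commutes with `zA`, so `bs (Y i)` preserves `ES D l i s ζ (r + 1)`: `y_(i,r,t',t)(Y)` = the coordinates of `bs (Y i) (u i r t)`, `ℚ_l`-linear in `Y`. For a `k` which is not independent of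
`t` at `(i0, r0)` the `ℚ_l`-linear map `f_k(Y) = ∑ k_(irt) y_(irtt)(Y)`, `W → Ω`, is not zero: choose `x : Fin (n_i0) → Ω` with `∑ x_t = 0`, `∑ k_(i0,r0,t) x_t ≠ 0` (`x = ε_t - ε_t'` with `k_t ≠ k_t'`); SPN for `VA D l i0`, `Z = zA s`, `E` from `GJ.L9_stmt` for `θ i0` (`kill` iff skew; `IsTh.zeta`), `s = r0 + 1`, `N = dg x`: `∑ c_j f_k(A_j at i0, 0 elsewhere) = ∑ k x ≠ 0`
(`r + 1 ≤ (l - 1) / 2`, so `r + 1 ≠ l - (r0 + 1)`), so `f_k(A_j) ≠ 0` for some `j` (`IsSuA.tr`: every `zA s'` is a power of `zA s`, NB1). There are finitely many `k`; a vector space over an infinite field is not a finite union of proper subspaces (`Subspace.biUnion_ne_univ_of_top_notMem`, or induction: `Y + c Y'` for all but finitely many `c`): `Y` with `f_k(Y) ≠ 0` for all `k`.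
Multiply `Y` by `l^c` so that all `Y_i` preserve `TZ D l i` (`Lat`: NB1). -/
def SUY_stmt : Prop := ∀ (l : ℕ) [Fact l.Prime], l ≠ 2 → ∀ D : Dat l, (∀ i, 0 < D.n i) →
  ∀ θ : ∀ i, ExteriorAlgebra ℚ_[l] (VA D l i), TQ.IsOK D θ → ∀ s : rootsOfUnity l Om, Prim s → ∀ ζ : PadicAlgCl l, IsPrimitiveRoot ζ l →
  ∀ (u : ∀ i, ∀ r : Fin ((l - 1) / 2), Module.Basis (Fin (D.n i)) (PadicAlgCl l) (ES D l i s ζ ((r : ℕ) + 1))) (B : ℕ),
  ∃ (Y : ∀ i, Module.End ℚ_[l] (VA D l i)) (y : ∀ i, Fin ((l - 1) / 2) → Fin (D.n i) → Fin (D.n i) → PadicAlgCl l),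
    (∀ i, TQ.IsSuA (θ i) (Y i)) ∧ (∀ i, ∀ t ∈ TZ D l i, Y i t ∈ TZ D l i) ∧
    (∀ i r t, bs (Y i) (u i r t : WA D l i) = ∑ t', y i r t' t • (u i r t' : WA D l i)) ∧
    ∀ k : ∀ i, Fin ((l - 1) / 2) → Fin (D.n i) → ℤ, (∀ i r t, |k i r t| ≤ B) → (¬ ∀ i r t t', k i r t = k i r t') →
      ∑ i, ∑ r, ∑ t, (k i r t : PadicAlgCl l) * y i r t t ≠ 0

/-! ## Congruence subgroups, the elements `φ` -/

/-- NRM (medium; adapt `Pool/Agent/helper49/TI/GNK.lean`, the proof of GNK). CONGRUENCE SUBGROUPS, normalised by all automorphisms fixing the `l`-th roots of unity. `N` = the set of the `g` with `D.Fix g`, which fix all `x` with `x^l = 1` or `x^(q^K) = 1`, and are `1` modulo `q^K` on all `TZ D q i`. A subgroup: TQ.NB1_stmt. `chiO q g = 1` modulo `q^K`: as in GNK. NORMAL: let `γ` fix the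
`l`-th roots of unity: `γ ∈ PF`, so `γ⁻¹ a_ij = a_ij'` is fixed by `g` and `γ g γ⁻¹ a_ij = a_ij`; roots of unity: the same; `galA (γ g γ⁻¹) = galP γ ∘ galA g ∘ galP γ⁻¹` and `galP` preserves `TZ` (AQ.BGP_stmt). `S1`: the `a_ij`, the roots of unity, and for every `i` a basis over `ℚ` of the field `L'` of TQ.NC2_stmt. (Dedekind: GJ.DD_stmt; finite dimension: TD.VF_stmt.) -/
def NRM_stmt : Prop := ∀ (l q : ℕ) [Fact l.Prime] [Fact q.Prime], l ≠ 2 → ∀ D : Dat l, (∀ i, 0 < D.n i) →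
  (∀ σ : Om ≃+* Om, (∀ x : Om, x ^ l = 1 → σ x = x) → PF D σ) → ∀ K : ℕ,
  ∃ (N : Subgroup (Om ≃+* Om)) (S1 : Finset Om), Fx S1 ≤ N ∧ (∀ g ∈ N, D.Fix g ∧ ∀ x : Om, x ^ l = 1 → g x = x) ∧
    (∀ g : Om ≃+* Om, (∀ x : Om, x ^ l = 1 → g x = x) → ∀ x ∈ N, g * x * g⁻¹ ∈ N) ∧
    ∀ g ∈ N, ‖chiO q g - 1‖ ≤ ‖(q : ℚ_[q]) ^ K‖ ∧
      ∀ (h : D.Fix g) (i : Fin D.k), ∀ f ∈ TZ D q i, ∃ f' ∈ TZ D q i, galA q h i f = f + (q : ℚ_[q]) ^ K • f'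

/-- CYC (short-medium). A WEIGHTED CYCLE. `n = m - 1`, `m` prime, `p` a primitive root modulo `m`. `Φ` permutes the lines `Ω v_j` in one cycle of length `n` (`(j' + 1) p = j + 1`: `j' + 1 = p⁻¹ (j + 1)`), so `Φ^n v_j = κ v_j` with the same `κ` (the product of all weights), `κ ≠ 0`. `ξ_t` = the `n` different `n`-th roots of `κ` (algebraically closed, characteristic zero). `v_0, Φ v_0, .., Φ^(n-1) v_0` are non zero
multiples of the `v_j` in another order; `u_t = ∑_(j < n) ξ_t^(-j) Φ^j v_0 ≠ 0` satisfies `Φ u_t = ξ_t u_t`; eigenvectors with different eigenvalues are independent: a basis. -/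
def CYC_stmt : Prop := ∀ (Ω U : Type) [Field Ω] [IsAlgClosed Ω] [CharZero Ω] [AddCommGroup U] [Module Ω U] (n p : ℕ), (n + 1).Prime → (p : ZMod (n + 1)) ≠ 0 →
  (∀ x y : ZMod (n + 1), x ≠ 0 → y ≠ 0 → ∃ k : ℕ, y = (p : ZMod (n + 1)) ^ k * x) → ∀ (v : Module.Basis (Fin n) Ω U) (Φ : U →ₗ[Ω] U),
  (∀ j j' : Fin n, ((((j' : ℕ) + 1) * p : ℕ) : ZMod (n + 1)) = (((j : ℕ) + 1 : ℕ) : ZMod (n + 1)) → ∃ d : Ω, d ≠ 0 ∧ Φ (v j) = d • v j') →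
  ∃ (κ : Ω) (ξ : Fin n → Ω) (u : Module.Basis (Fin n) Ω U), κ ≠ 0 ∧ Function.Injective ξ ∧ (∀ t, ξ t ^ n = κ) ∧ ∀ t, Φ (u t) = ξ t • u t

/-- WCI (short-medium). THE ELEMENTS `τ`, `φ` AT AN EISENSTEIN PRIME. AQ.BRF_stmt (proved for project aq; `zK q z` is `zA D q i z`): `τ`, `φ`. `WC`: BRF for `q = l` (`l ≠ p` as `l ∣ p - 1`) and `Ω = PadicAlgCl l`, and CYC for the restriction of `bs (galP l hφ i)` to `ES` (it commutes with `bs (zA ..)`: AQ.BGP_stmt). (`p ≠ 0` modulo `m = n_i + 1`: for `m = 2` as `p` is odd, `2 < l ∣ p - 1`; for `m ≥ 3` by the hypothesis on `p`.) For `q ≠ p`: `(c ω^(j+1))^(n+1) = c^(n+1)` as `ω^(n+1) = 1`, so `bs (galP τ)^(n+1)` is the scalar `c^(n+1)` on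
`ES` (basis `v_j`); the irreducibility is the last part of BRF. -/
def WCI_stmt : Prop := ∀ (l p : ℕ) [Fact l.Prime] [Fact p.Prime], l ≠ 2 → l ∣ p - 1 → ∀ D : Dat l,
  (∀ σ : Om ≃+* Om, (∀ x : Om, x ^ l = 1 → σ x = x) → PF D σ) → ∀ i : Fin D.k, (D.n i + 1).Prime →
  (∀ x y : ZMod (D.n i + 1), x ≠ 0 → y ≠ 0 → ∃ k : ℕ, y = (p : ZMod (D.n i + 1)) ^ k * x) → (∀ j, D.μ i j = D.μ i 0) →
  ∀ (F : ℤ[X]) (u : ℤ), F.Monic → F.IsEisensteinAt (Ideal.span {(p : ℤ)}) → F.map (Int.castRingHom Om) = ∏ j, (X - C (D.a i j - (u : Om))) →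
  ∃ (τ φ : Om ≃+* Om) (hτ : PF D τ) (hφ : PF D φ), WC D i φ ∧ ∀ (q : ℕ) [Fact q.Prime], q ≠ p →
    ∀ (ζ : PadicAlgCl q), IsPrimitiveRoot ζ l → ∀ s : rootsOfUnity l Om, Prim s → ∀ r : ℕ, 0 < r → r < l →
    (∃ c : PadicAlgCl q, ∀ x ∈ ES D q i s ζ r, ((bs (galP q hτ i) : Module.End (PadicAlgCl q) (WA D q i)) ^ (D.n i + 1)) x = c • x) ∧
    ∀ W : Submodule (PadicAlgCl q) (WA D q i), W ≤ ES D q i s ζ r → (∀ w ∈ W, bs (galP q hτ i) w ∈ W) → (∀ w ∈ W, bs (galP q hφ i) w ∈ W) →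
      W = ⊥ ∨ W = ES D q i s ζ r

/-- WCO (short). `n_i = 1`: `φ = 1`. `PF D 1` and `galP 1 = 1`: AQ.BGP_stmt. AQ.LDE_stmt for `VA D l i`, `Z = zA s` (free: TD.VF_stmt for `K = Om`; `∑ Z^i = 0`: NB1 or NBK; `zA`, `zK` are the same): `ES` has dimension `1`. `κ = 1`, `ξ = 1`, any basis. -/
def WCO_stmt : Prop := ∀ (l : ℕ) [Fact l.Prime], l ≠ 2 → ∀ (D : Dat l) (i : Fin D.k), D.n i = 1 → WC D i 1

/-! ## The transfer of eigenvalues from `l` to `q` -/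

/-- FPW (short). POWERS OF FROBENIUS. Induction on `s`. -/
def FPW_stmt : Prop := ∀ (O : ValuationSubring Om) (F : Om ≃+* Om) (p s : ℕ), IsFrobO O F p → IsFrobO O (F ^ s) (p ^ s)

/-- DTU (medium). DETERMINANTS ON THE EIGENSPACES. `IsDet`: `v_k`, `b`, the matrix `M` over `ℚ_q[X]`, `g v_k = ∑ M_k'k(Z) v_k'`, `x = det (fl M)`. `Π = ∏_(0 < j < l, j ≠ r) (1 ⊗ Z - ζ^j)` maps `Ω ⊗ V` to `E_r = eg (bs Z) ζ r` (`∏_(0 < j < l) (1 ⊗ Z - ζ^j) = ∑ (1 ⊗ Z)^i = 0`); the `w_k = Π (1 ⊗ v_k) = ∑_j c_j ⊗ Z^j v_k`, `c_(l-2) = 1`, are linearly independent (see the proof of AQ.LDE: `Pool/Agent/*/AQ/LDE.lean`), and `E_r` has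
dimension `n` (LDE): a basis of `E_r`. `g` commutes with `Z`, so with `Π`: `bs g w_k = ∑ M_k'k(1 ⊗ Z) w_k' = ∑ M_k'k(ζ^r) w_k'`. So `det g' = det (M(ζ^r)) = ev x`, `ev : Fl q l → Ω`, `fl X ↦ ζ^r` (`AdjoinRoot.lift`; `Φ_l(ζ^r) = 0`). `ev` of the hypothesis. -/
def DTU_stmt : Prop := ∀ (q l n : ℕ) [Fact q.Prime] [Fact l.Prime] (V : Type) [AddCommGroup V] [Module ℚ_[q] V] (Z g : Module.End ℚ_[q] V),
  IsFreeZ l n Z → ∑ i ∈ Finset.range l, Z ^ i = 0 → g * Z = Z * g → ∀ (P : ℚ_[q][X]) (w : ℕ) (x : Fl q l), IsDet l Z g x → x ^ w = (fl P : Fl q l) ^ w →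
  ∀ ζ : PadicAlgCl q, IsPrimitiveRoot ζ l → ∀ r : ℕ, 0 < r → r < l → ∀ g' : eg (bs Z) ζ r →ₗ[PadicAlgCl q] eg (bs Z) ζ r,
  (∀ w : eg (bs Z) ζ r, (g' w : PadicAlgCl q ⊗[ℚ_[q]] V) = bs g (w : PadicAlgCl q ⊗[ℚ_[q]] V)) →
  LinearMap.det g' ^ w = (aeval (ζ ^ r) P) ^ w

/-- TRF (medium-long). THE EIGENVALUES ON `V_q` ARE THOSE ON `V_l`. GDF (`w`, `D0` for `q`), TFQ.QB2_stmt for `l` and for `q` (finite dimension: TD.VF_stmt); `D0` = the product of the three numbers. TFQ.QCF_stmt: `P d ∈ ℤ[X]`, the SAME for `l` and `q` (`IsPol` for both). `ζ = s ∈ Om`, `R = ∑_(d ≤ n) P_d(ζ^r) X^(n-d) ∈ Om[X]`, monic of degree `n`. On `U_l = eg (bs (zK l s)) (jl s) r` the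
relation QB2 becomes `(R^jl)(σ) = 0` (`zK l s` is `jl(s)^r`; `aeval (zK l s) P = P(jl(s)^r)` on `U_l`). `σ v_t = c_t v_t`: `R^jl(c_t) = 0`; the `c_t` are different and not zero (`σ` is invertible: NBK; the hypothesis for `k = ε_t - ε_t'`; `1 ≤ w n`), so `R^jl = ∏ (X - c_t)`. `Om` is algebraically closed: `R = ∏ (X - b_t)`, and the `jl b_t` are the `c_t` in some order: reorder `b`.
On `U_q = eg (bs (zK q s)) (jq s) r`, of dimension `n` (AQ.LDE_stmt, VF): `∏ (σ - jq b_t) = R^jq(σ) = 0` (QB2 for `q`), for the restriction `σ'` of `bs σ` to `U_q` (it commutes with `zK`: NBK). GDF and DTU with `P = (-1)^n P_n` (`x` from TD.LP_stmt): `det(σ')^w = ((-1)^n P_n(jq(s)^r))^w = ((-1)^n jq(R(0)))^w = (∏ jq b_t)^w`. AQ.LMU_stmt for `α = jq b`: the last condition: `m` with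
`∑ m = n`, `∏ (jq b_t)^(w m_t) = (∏ jq b_t)^w`: `jq` is injective, apply `jl`: `∏ c_t^(w (m_t - 1)) = 1`, `∑ w (m_t - 1) = 0`, `|w (m_t - 1)| ≤ w n`: so `w (m_t - 1) = 0`. -/
def TRF_stmt : Prop := ∀ (l n q : ℕ) [Fact l.Prime] [Fact q.Prime], l ≠ 2 → 0 < n → ∀ (μ : Fin (n + 1) → ℕ) (a : Fin (n + 1) → Om)
  [Good Om l μ a], ∃ w D0 : ℕ, 0 < w ∧ 0 < D0 ∧
  ∀ (p M α : ℕ) [Fact p.Prime] (F : Type) [Field F] [Fintype F] [DecidableEq F]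
    (O : ValuationSubring Om) [CharP (rf O) p] (e : F →+* rf O) (χ : MulChar F Om) (σ : Om ≃+* Om) (A : Fin (n + 1) → F)
    (hP : IsPlQ (l := l) a α O e χ σ A), cq F = p ^ M → ((D0 : ℕ) : rf O) ≠ 0 → ∀ s : rootsOfUnity l Om, Prim s →
  ∀ (jl : Om →+* PadicAlgCl l) (jq : Om →+* PadicAlgCl q) (r : ℕ), 0 < r → r < l →
  ∀ (v : Module.Basis (Fin n) (PadicAlgCl l) (eg (bs (zK l s : VT l (JC Om l μ a) →ₗ[ℚ_[l]] VT l (JC Om l μ a))) (jl ((s : Omˣ) : Om)) r))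
    (c : Fin n → PadicAlgCl l),
  (∀ t, bs (VT.map l (actA σ hP.fix (1 : rootsOfUnity l Om))) (v t : PadicAlgCl l ⊗[ℚ_[l]] VT l (JC Om l μ a)) =
    c t • (v t : PadicAlgCl l ⊗[ℚ_[l]] VT l (JC Om l μ a))) →
  (∀ k : Fin n → ℤ, (∀ t, |k t| ≤ (w : ℤ) * n) → ∑ t, k t = 0 → ∏ t, c t ^ k t = 1 → k = 0) →
  ∃ (b : Fin n → Om) (v' : Module.Basis (Fin n) (PadicAlgCl q) (eg (bs (zK q s : VT q (JC Om l μ a) →ₗ[ℚ_[q]] VT q (JC Om l μ a))) (jq ((s : Omˣ) : Om)) r)),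
    (∀ t, jl (b t) = c t) ∧ ∀ t, bs (VT.map q (actA σ hP.fix (1 : rootsOfUnity l Om))) (v' t : PadicAlgCl q ⊗[ℚ_[q]] VT q (JC Om l μ a)) =
      jq (b t) • (v' t : PadicAlgCl q ⊗[ℚ_[q]] VT q (JC Om l μ a))

/-- TRD (short-medium). THE SAME FOR ALL CURVES. TRF for every `i`: `w_i`, `D_i`; `w` = the sum of the `w_i n_i`, plus one; `D0` = `l q` times the product of the `D_i` and the number of TFQ.QPL_stmt. QPL: `F`, `e`, `χ`, `A` (with `cq F = p^M`), `IsPlQ` for all `i`. The characters: FJ.E4_stmt. -/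
def TRD_stmt : Prop := ∀ (l q : ℕ) [Fact l.Prime] [Fact q.Prime], l ≠ 2 → ∀ D : Dat l, (∀ i, 0 < D.n i) → ∃ w D0 : ℕ, 0 < w ∧ 0 < D0 ∧
  ∀ (p M : ℕ) [Fact p.Prime] (O : ValuationSubring Om) [CharP (rf O) p] (σ : Om ≃+* Om) (hσ : D.Fix σ), 0 < M → IsFrobO O σ (p ^ M) →
  (∀ x : Om, x ^ l = 1 → σ x = x) → ((D0 : ℕ) : rf O) ≠ 0 →
  chiO l σ = (p : ℚ_[l]) ^ M ∧ chiO q σ = (p : ℚ_[q]) ^ M ∧
  ∀ s : rootsOfUnity l Om, Prim s → ∀ (jl : Om →+* PadicAlgCl l) (jq : Om →+* PadicAlgCl q) (i : Fin D.k) (r : ℕ), 0 < r → r < l →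
  ∀ (v : Module.Basis (Fin (D.n i)) (PadicAlgCl l) (ES D l i s (jl ((s : Omˣ) : Om)) r)) (c : Fin (D.n i) → PadicAlgCl l),
  (∀ t, bs (galA l hσ i) (v t : WA D l i) = c t • (v t : WA D l i)) →
  (∀ k : Fin (D.n i) → ℤ, (∀ t, |k t| ≤ w) → ∑ t, k t = 0 → ∏ t, c t ^ k t = 1 → k = 0) →
  ∃ (b : Fin (D.n i) → Om) (v' : Module.Basis (Fin (D.n i)) (PadicAlgCl q) (ES D q i s (jq ((s : Omˣ) : Om)) r)),
    (∀ t, jl (b t) = c t) ∧ ∀ t, bs (galA q hσ i) (v' t : WA D q i) = jq (b t) • (v' t : WA D q i)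

/-! ## The assembly -/

/-- LH1 (medium). THE ELEMENT `h` FOR `PL1`. `φ_i`, `κ`, `ξ`, `u i r` from `WC` for `ζ`, `r + 1`; `P_i = galP l _ i`, `P'_i = galP l _ i` for `φ_i⁻¹` (AQ.BGP_stmt). SUY for `u` and `B n`, `n` = the product (or the sum) of the `n_i`: `Y0`, `y0`. `Y_i = av P_i P'_i (Y0 i) (n_i)`, `y_(irt) = n_i y0_(irtt)`: AVG. They preserve `TZ`. The sum: apply SUY to `n_i k_(irt)` (`|n_i k| ≤ n B`; not independent of `t` as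
`n_i > 0`). THE GROUP: for every `i` APD for the family `Function.update 0 i (Y0 i)` (in su), `N' = ⊤`: `h_i` at the level `N`, precision `m`, fixing all roots of unity; `g_i = φ_i^(-n_i) (φ_i h_i)^(n_i)`: CNJ at `i` and at every `i' ≠ i` (with `Y = 0`: `av .. 0 .. = 0`): `Nr (galA g_i i') (Y_i if i' = i, 0 else) N m`. `h` = the product of the `g_i` (in any order; `List.prod` over `List.finRange D.k`): NRA (3)
repeatedly, `∑_i (Y_i at i' = i) = Y_i'`. `h` fixes the `l`-th roots of unity, `chiO l g_i = chiO(φ_i)^(-n_i) chiO(φ_i)^(n_i) chiO(h_i)^(n_i) = 1` (`chiO` is a homomorphism, NB1; `chiO h_i = 1`: the cyclotomic character of an automorphism fixing all roots of unity; as in the proof of GNK, `Pool/Agent/helper49/TI/GNK.lean`: it is `1` modulo `l^K` for all `K`). Uses APD, CNJ, AVG, SUY, NRA, BGP, NB1. -/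
def LH1_stmt : Prop := ∀ (l : ℕ) [Fact l.Prime], l ≠ 2 → ∀ D : Dat l, (∀ i, 0 < D.n i) → D.Ind → D.Sep →
  ∀ θ : ∀ i, ExteriorAlgebra ℚ_[l] (VA D l i), TQ.IsOK D θ → (∀ i, ∃ φ, WC D i φ) →
  ∀ s : rootsOfUnity l Om, Prim s → ∀ ζ : PadicAlgCl l, IsPrimitiveRoot ζ l → ∀ B : ℕ,
  ∃ (Y : ∀ i, Module.End ℚ_[l] (VA D l i)) (u : ∀ i, ∀ r : Fin ((l - 1) / 2), Module.Basis (Fin (D.n i)) (PadicAlgCl l) (ES D l i s ζ ((r : ℕ) + 1)))
    (y : ∀ i, Fin ((l - 1) / 2) → Fin (D.n i) → PadicAlgCl l),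
    (∀ i r t, bs (Y i) (u i r t : WA D l i) = y i r t • (u i r t : WA D l i)) ∧
    (∀ k : ∀ i, Fin ((l - 1) / 2) → Fin (D.n i) → ℤ, (∀ i r t, |k i r t| ≤ B) → (¬ ∀ i r t t', k i r t = k i r t') →
      ∑ i, ∑ r, ∑ t, (k i r t : PadicAlgCl l) * y i r t ≠ 0) ∧
    ∀ m : ℕ, ∃ N0 : ℕ, ∀ N ≥ N0, ∃ (h : Om ≃+* Om) (hh : D.Fix h), (∀ x : Om, x ^ l = 1 → h x = x) ∧ chiO l h = 1 ∧
      ∀ i, Nr (TZ D l i) (galA l hh i) (Y i) N m

/-- LF1 (medium-long). THE FROBENIUS ELEMENT FOR `PL1` AND ITS EIGENVALUES ON `V_l`. LH1 for `max B 1`: `Y`, `u`, `y`. The `y_(irt)`, `t` variable, are different (`k = ε_t - ε_t'`). REL for the index set of all `(i, r, t)`, and `max B 1`: `ε`, `N1`. PER for every `(i, r)`, `Φ = 1`, `κ = 1`, `ε`: `m` (the maximum; NRA (1)). `N` large: LH1: `h`. `K ≥ N + m` with `|l^K| ≤ |l^N| ε`; NRM for `q = l`: `N_l`, `S1`. FDN for `S0` = the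
`a_ij` and the `l`-th roots of unity, `N = N_l`, `σ0 = h`, the number `D0`: `p`, `O`, `F`, `v`: `F^v = ν h`, `ν ∈ N_l`. `D.Fix F`. `Nr (galA (F^v)) Y_i N m` (NRA (3) with `Y' = 0`). It commutes with `zA s` (NB1): PER: bases `e_(ir)` of `ES`, `η`, `bs (galA (F^v)) e_(irt) = (1 + l^N η_(irt)) e_(irt)`; these are different for different `t` (REL for `ε_t - ε_t'`, `M = 1`, `c = 1`). ELN for `galA F` (`galA (F^v) = (galA F)^v`, NB1): `c_(irt)`, `c_(irt)^v = 1 + l^N η_(irt)`, not zero (`v > 0`, `galA F` is invertible). RELATIONS: `((∏ c^x) p^(c'))^M = 1`: the `v`-th power: `((∏ (1 + l^N η)^x) (p^v)^(c'))^M = 1`; `p^v = chiO l (F^v) = chiO l ν` (FJ.E4_stmt for `F`: choose the number `l D0` in FDN), `|chiO l ν - 1| ≤ |l^K|`. REL: `∑ x y = 0`, so `x_(irt)` does not depend on `t` (LH1).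
Uses LH1, REL, PER, ELN, NRM, FDN, NRA, FJ.E4_stmt, NB1. -/
def LF1_stmt : Prop := ∀ (l : ℕ) [Fact l.Prime], l ≠ 2 → ∀ D : Dat l, (∀ i, 0 < D.n i) → D.Ind → D.Sep →
  (∀ σ : Om ≃+* Om, (∀ x : Om, x ^ l = 1 → σ x = x) → PF D σ) →
  ∀ θ : ∀ i, ExteriorAlgebra ℚ_[l] (VA D l i), TQ.IsOK D θ → (∀ i, ∃ φ, WC D i φ) →
  ∀ s : rootsOfUnity l Om, Prim s → ∀ ζ : PadicAlgCl l, IsPrimitiveRoot ζ l → ∀ B D0 : ℕ, 0 < D0 →
  ∃ (p : ℕ) (_ : Fact p.Prime) (O : ValuationSubring Om) (_ : CharP (rf O) p) (F : Om ≃+* Om) (hF : D.Fix F)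
    (e : ∀ i, ∀ r : Fin ((l - 1) / 2), Module.Basis (Fin (D.n i)) (PadicAlgCl l) (ES D l i s ζ ((r : ℕ) + 1)))
    (c : ∀ i, Fin ((l - 1) / 2) → Fin (D.n i) → PadicAlgCl l),
    (∀ x : Om, x ^ l = 1 → F x = x) ∧ IsFrobO O F p ∧ ((D0 : ℕ) : rf O) ≠ 0 ∧ (∀ i r t, c i r t ≠ 0) ∧
    (∀ i r t, bs (galA l hF i) (e i r t : WA D l i) = c i r t • (e i r t : WA D l i)) ∧
    ∀ (x : ∀ i, Fin ((l - 1) / 2) → Fin (D.n i) → ℤ) (c' : ℤ) (M : ℕ), (∀ i r t, |x i r t| ≤ B) → 0 < M →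
      ((∏ i, ∏ r, ∏ t, c i r t ^ x i r t) * (p : PadicAlgCl l) ^ c') ^ M = 1 → ∀ i r t t', x i r t = x i r t'

/-- LF2 (medium-long). THE FROBENIUS ELEMENT FOR `PL2`. `κ`, `ξ`, `u_(r')` (a basis of `ES D l i s ζ (r' + 1)`) from `WC` for every `r'`; for `i' ≠ i` any bases (AQ.LDE_stmt: dimension `n_i'`). `P = galP l hφ i`, `P'` = the one of `φ⁻¹`. SUY for these bases and `B s'` (or `max B 1` times `s'`): `Y0`, `y0`. `Y' = av P P' (Y0 i) s'`, `y_t = s' y0_(irtt)`: AVG (`n_i ∣ s'`). For `k : Fin (n_i) → ℤ`, `∑ k = 0`, `k ≠ 0`, `|k| ≤ B`: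
`∑ k_t y_t ≠ 0` (SUY for `s' k` at `(i, r)`, `0` elsewhere); so the `y_t` are different. REL for `y`: `ε`, `N1`. PER for `U = ES D l i s ζ (r + 1)`, the basis `u_r`, `Φ = P^(s')`, `κ' = κ^(s' / n_i)` (`P^(s') = ξ_t^(s') = κ'` on `u_t`), `Y'`, `ε`: `m`. NRM for `q`, `K`: `N_q`, `S_q`; every `σ` has a power in `N_q` (GJ.T7_stmt for `S_q`). APD for `N' = N_q`, `Y0`, `m`; CNJ for `φ`, `Y0 i`, `s'`, `m`; `N` large: `h ∈ N_q`.
NRM for `l` and `N + m`: `N_l`. FDN for `S0` = the `l`-th roots of unity, `N_q ⊓ N_l`, `σ0 = φ h`, `l D0`: `F^v = ν φ h = φ u`, `u = (φ⁻¹ ν φ) h ∈ N_q`, and `φ⁻¹ ν φ ∈ N_l`: `Nr (galA u i) (Y0 i) N m` (NRA (3), `Y' = 0`). CNJ: `g = φ^(-s') (φ u)^(s')`, `Nr (galA g i) Y' N m`; `F^(v s') = (φ u)^(s') = φ^(s') g`: `galA (F^(v s')) = P^(s') galA g` (BGP), so PER applies to `H = galA l _ i` of `(F^(s'))^v`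
(`D.Fix` by `hg`): `e`, `η`, `H e_t = κ' (1 + l^N η_t) e_t`, different eigenvalues (REL). ELN for `galA (F^(s'))`: `c_t`, `c_t^v = κ' (1 + l^N η_t)`. If `∑ k = 0`, `∏ c_t^(k_t) = 1` then `∏ (1 + l^N η_t)^(k_t) = 1` (`κ'` cancels), so `∑ k y = 0` (REL, `c = 1`, `M = 1`), `k = 0`. Uses SUY, AVG, REL, PER, ELN, NRM, APD, CNJ, FDN, NRA, BGP, LDE, T7, NB1. -/
def LF2_stmt : Prop := ∀ (l q : ℕ) [Fact l.Prime] [Fact q.Prime], l ≠ 2 → ∀ D : Dat l, (∀ i, 0 < D.n i) → D.Ind → D.Sep →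
  (∀ σ : Om ≃+* Om, (∀ x : Om, x ^ l = 1 → σ x = x) → PF D σ) →
  ∀ θ : ∀ i, ExteriorAlgebra ℚ_[l] (VA D l i), TQ.IsOK D θ → ∀ (i : Fin D.k) (φ : Om ≃+* Om), WC D i φ →
  ∀ s : rootsOfUnity l Om, Prim s → ∀ ζ : PadicAlgCl l, IsPrimitiveRoot ζ l → ∀ (r : Fin ((l - 1) / 2)) (K s' B D0 : ℕ), 0 < s' → D.n i ∣ s' →
  (∀ g : Om ≃+* Om, D.Fix (g ^ s')) → 0 < D0 →
  ∃ (p : ℕ) (_ : Fact p.Prime) (O : ValuationSubring Om) (_ : CharP (rf O) p) (F u : Om ≃+* Om) (v : ℕ) (hu : D.Fix u) (hF : D.Fix (F ^ s'))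
    (e : Module.Basis (Fin (D.n i)) (PadicAlgCl l) (ES D l i s ζ ((r : ℕ) + 1))) (c : Fin (D.n i) → PadicAlgCl l),
    (∀ x : Om, x ^ l = 1 → F x = x) ∧ (∀ x : Om, x ^ l = 1 → u x = x) ∧ IsFrobO O F p ∧ ((D0 : ℕ) : rf O) ≠ 0 ∧ F ^ v = φ * u ∧
    (∀ f ∈ TZ D q i, ∃ f' ∈ TZ D q i, galA q hu i f = f + (q : ℚ_[q]) ^ K • f') ∧
    (∀ t, bs (galA l hF i) (e t : WA D l i) = c t • (e t : WA D l i)) ∧
    ∀ k : Fin (D.n i) → ℤ, (∀ t, |k t| ≤ B) → ∑ t, k t = 0 → ∏ t, c t ^ k t = 1 → k = 0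

/-- PL1 (short-medium). TRD: `w`, `D0`. `jl : Om →+* PadicAlgCl l` (`IsAlgClosed.lift`). LF1 for `ζ = jl s`, `max B w`, `D0`: `F`, `e`, `c`. TRD for `σ = F`, `M = 1`: for every `(i, r)`: the condition on `k`: the family `x` with `k` at `(i, r)` and `0` elsewhere, `c' = 0`, `M = 1`: `k` is constant, `∑ k = 0`, so `k = 0` (`n_i > 0`). So `b_(irt) ∈ Om`, `jl b = c`, `v'`. `v = v'`, `α = jq b`, `Q = p`.
The relation over `PadicAlgCl q` is `jq` of a relation in `Om` (`jq` is injective), apply `jl`: a relation for `c`: LF1. -/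
def PL1r_stmt : Prop := PL1_stmt

/-- PL2 (short-medium). GJ.T7_stmt for the set of the `a_ij`: `M0`; `s' = s0 M0 n_i`. TRD: `w`, `D0`. `jl` as in PL1. LF2 for `ζ = jl s`, `B = w`, `D0`: `F`, `u`, `v`, `e`, `c`. TRD for `σ = F^(s')`, `M = s'` (FPW): `b_t`, `v'`, `bs (galA q _ i) v'_t = jq(b_t) v'_t`, and the `jq(b_t)` are different (`c_t = jl(b_t)` are different: `k = ε_t - ε_t'`, `1 ≤ w`). `bs (galP q hF i)^(s') = bs (galA q _ i)` for `F^(s')` (AQ.BGP_stmt).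
Two vectors of `ES` with the same eigenvalue under an operator which is diagonal in the basis `v'` with different eigenvalues are multiples of the same `v'_t` (or zero). `PF D u`, `PF D F` by hypothesis; `galP q hu = galA q hu` (BGP). -/
def PL2r_stmt : Prop := PL2_stmt

end

end Pool.Agent.TI
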