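import Pool.Agent.helper63.TI.SpecA

set_option autoImplicit false

namespace Pool.Agent.TI

open Polynomial NumberField Pool.Agent.GJ Pool.Agent.TK Pool.Agent.TQ Pool.Agent.TFQ Pool.Agent.TD Pool.Agent.AQ
open Pool.Agent.FJ (VT Om chiO IsFrobO rf rs)
open scoped TensorProduct

noncomputable section

theorem PL2_pow (F : Om ≃+* Om) (x : Om) (h : F x = x) (n : ℕ) : (F ^ n) x = x := by
  induction n with
  | zero => rfl
  | succ n ih =>
    rw [pow_succ]
    show (F ^ n) (F x) = x
    rw [h, ih]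

/-- an operator diagonal in a basis with different eigenvalues has no repeated eigenvalue -/
theorem PL2_li {Ω W : Type} [Field Ω] [AddCommGroup W] [Module Ω W] (U : Submodule Ω W) (n : ℕ) (v : Module.Basis (Fin n) Ω U)
    (A : W →ₗ[Ω] W) (b : Fin n → Ω) (hb : Function.Injective b) (hA : ∀ t, A (v t : W) = b t • (v t : W)) (c : Ω) (x y : W)
    (hx : x ∈ U) (hy : y ∈ U) (hAx : A x = c • x) (hAy : A y = c • y) : ¬ LinearIndependent Ω ![x, y] := by
  intro hli
  have key : ∀ (z : W) (hz : z ∈ U), A z = c • z → ∀ t, v.repr ⟨z, hz⟩ t * (b t - c) = 0 := by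
    intro z hz hAz t
    have h1 : ∑ t, (v.repr ⟨z, hz⟩ t) • (v t : W) = z := by
      have := congrArg (fun u : U => (u : W)) (v.sum_repr ⟨z, hz⟩)
      simpa only [Submodule.coe_sum, Submodule.coe_smul] using this
    have h2 : ∑ t, (v.repr ⟨z, hz⟩ t * (b t - c)) • (v t : W) = 0 := by
      have h3 : A z - c • z = 0 := by rw [hAz, sub_self]
      rw [← h1] at h3
      rw [map_sum, Finset.smul_sum, ← Finset.sum_sub_distrib] at h3
      rw [← h3]
      refine Finset.sum_congr rfl fun t _ => ?_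
      rw [map_smul, hA, smul_smul, smul_smul, ← sub_smul]
      congr 1
      ring
    have h4 : ∑ t, (v.repr ⟨z, hz⟩ t * (b t - c)) • v t = 0 := by
      apply Subtype.ext
      simpa only [Submodule.coe_sum, Submodule.coe_smul, Submodule.coe_zero] using h2
    exact Fintype.linearIndependent_iff.1 v.linearIndependent _ h4 t
  have hne : ∀ (z : W) (hz : z ∈ U), z ≠ 0 → ∃ t, v.repr ⟨z, hz⟩ t ≠ 0 := by
    intro z hz h0
    by_contra hcon
    push Not at hcon
    apply h0
    have h1 : v.repr ⟨z, hz⟩ = 0 := Finsupp.ext hcon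
    have h2 := v.repr.map_eq_zero_iff.1 h1
    exact congrArg (fun u : U => (u : W)) h2
  have hx0 : x ≠ 0 := hli.ne_zero 0
  have hy0 : y ≠ 0 := hli.ne_zero 1
  obtain ⟨t, ht⟩ := hne x hx hx0
  obtain ⟨t', ht'⟩ := hne y hy hy0
  have h1 : b t = c := by
    rcases mul_eq_zero.1 (key x hx hAx t) with h | h
    · exact absurd h ht
    · exact sub_eq_zero.1 h
  have h2 : b t' = c := by
    rcases mul_eq_zero.1 (key y hy hAy t') with h | h
    · exact absurd h ht'
    · exact sub_eq_zero.1 h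
  have htt : t' = t := hb (h2.trans h1.symm)
  subst htt
  have h3 : ∀ (z : W) (hz : z ∈ U), A z = c • z → z = v.repr ⟨z, hz⟩ t' • (v t' : W) := by
    intro z hz hAz
    have h4 : ∑ t, (v.repr ⟨z, hz⟩ t) • (v t : W) = z := by
      have := congrArg (fun u : U => (u : W)) (v.sum_repr ⟨z, hz⟩)
      simpa only [Submodule.coe_sum, Submodule.coe_smul] using this
    rw [Finset.sum_eq_single t'] at h4
    · exact h4.symm
    · intro t _ hne'
      rcases mul_eq_zero.1 (key z hz hAz t) with h | h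
      · rw [h, zero_smul]
      · exact absurd (hb ((sub_eq_zero.1 h).trans h1.symm)) hne'
    · intro h
      exact absurd (Finset.mem_univ _) h
  have ex := h3 x hx hAx
  have ey := h3 y hy hAy
  generalize v.repr ⟨x, hx⟩ t' = α at ex
  generalize v.repr ⟨y, hy⟩ t' = β at ey ht'
  have h5 := LinearIndependent.pair_iff.1 hli β (-α) (by
    rw [ex, ey, smul_smul, smul_smul, ← add_smul, mul_comm β α, neg_mul, add_neg_cancel, zero_smul])
  exact ht' h5.1

theorem PL2 (hTRD : TRD_stmt) (hLF2 : LF2_stmt) (hFPW : FPW_stmt) (hBGP : AQ.BGP_stmt) (hT7 : GJ.T7_stmt) : PL2_stmt := by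
  intro l q _ _ hl D hn hInd hSep hPF θ hOK i φ hW jq s hs r K s0 hs0
  classical
  obtain ⟨w, D0, hw, hD0, hT⟩ := hTRD l q hl D hn
  obtain ⟨jl⟩ : Nonempty (Om →+* PadicAlgCl l) := by
    have h1 : Algebra.IsAlgebraic ℚ Om := AlgebraicClosure.isAlgebraic ℚ
    exact ⟨(IsAlgClosed.lift : Om →ₐ[ℚ] PadicAlgCl l).toRingHom⟩
  have hζ : IsPrimitiveRoot (jl ((s : Omˣ) : Om)) l := hs.map_of_injective jl.injective
  obtain ⟨M0, hM0, hM0'⟩ := hT7 (Finset.univ.biUnion fun i => Finset.univ.image (D.a i))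
  obtain ⟨s', hs'⟩ : ∃ s', s' = s0 * D.n i * M0 := ⟨_, rfl⟩
  have hs'0 : 0 < s' := by
    rw [hs']
    exact Nat.mul_pos (Nat.mul_pos hs0 (hn i)) hM0
  have hfix : ∀ g : Om ≃+* Om, D.Fix (g ^ s') := by
    intro g i' j
    rw [hs', pow_mul]
    refine hM0' _ _ ?_
    rw [Finset.mem_biUnion]
    exact ⟨i', Finset.mem_univ _, Finset.mem_image.2 ⟨j, Finset.mem_univ _, rfl⟩⟩
  obtain ⟨p, hp, O, hO, F, u, v, hu, hF, e, c, hF1, hu1, hFr, hD0', hFu, hlat, he, hrel⟩ :=
    hLF2 l q hl D hn hInd hSep hPF θ hOK i φ hW s hs (jl ((s : Omˣ) : Om)) hζ r K s' w D0 hs'0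
      (by rw [hs']; exact ⟨s0 * M0, by ring⟩) hfix hD0
  have hFs1 : ∀ x : Om, x ^ l = 1 → (F ^ s') x = x := fun x hx => PL2_pow F x (hF1 x hx) s'
  obtain ⟨hchl, hchq, hT2⟩ := hT p s' O (F ^ s') hF hs'0 (hFPW O F p s' hFr) hFs1 hD0'
  have hrl : (r : ℕ) + 1 < l := by
    have := r.2
    omega
  obtain ⟨b, v', hb, hv'⟩ := hT2 s hs jl jq i ((r : ℕ) + 1) (Nat.succ_pos _) hrl e c he hrel
  -- powers of `galP`
  obtain ⟨hG1, hG2, hG3, hG⟩ := hBGP l q D
  obtain ⟨hGm, hGo, hGA, hGz, hGT⟩ := hG i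
  have hpow : ∀ (n : ℕ) (h : PF D (F ^ n)), galP q h i = (galP q (hPF F hF1) i : Module.End ℚ_[q] (VA D q i)) ^ n := by
    intro n
    induction n with
    | zero =>
      intro h
      refine LinearMap.ext fun f => ?_
      exact hGo h f
    | succ n ih =>
      intro h
      have h1 : PF D (F ^ n) := hPF _ fun x hx => PL2_pow F x (hF1 x hx) n
      refine LinearMap.ext fun f => ?_
      have h2 := hGm (F ^ n) F h1 (hPF F hF1) h f
      refine h2.trans ?_
      rw [ih h1]
      exact (congrArg (fun A : Module.End ℚ_[q] (VA D q i) => A f) (pow_succ _ n)).symm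
  have hPs : PF D (F ^ s') := hPF _ hFs1
  have hpow' : (bs (galP q (hPF F hF1) i) : Module.End (PadicAlgCl q) (WA D q i)) ^ s' = bs (galA q hF i) := by
    have h1 : (galP q (hPF F hF1) i : Module.End ℚ_[q] (VA D q i)) ^ s' = galA q hF i := by
      rw [← hpow s' hPs]
      exact LinearMap.ext fun f => hGA (F ^ s') hPs hF f
    rw [← h1]
    exact (LinearMap.baseChange_pow (R := ℚ_[q]) (A := PadicAlgCl q) (M := VA D q i) (galP q (hPF F hF1) i : Module.End ℚ_[q] (VA D q i)) s').symm
  -- the eigenvalues are not zero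
  have hc0 : ∀ t, c t ≠ 0 := by
    intro t h0
    obtain ⟨hL1, hL2, hL3, hL⟩ := hBGP l l D
    obtain ⟨hLm, hLo, hLA, hLz, hLT⟩ := hL i
    have h1 : galP l (hL3 _ hPs) i ∘ₗ galA l hF i = LinearMap.id := by
      refine LinearMap.ext fun f => ?_
      have h2 := hLm (F ^ s')⁻¹ (F ^ s') (hL3 _ hPs) hPs (by rw [inv_mul_cancel]; exact hL1) f
      rw [hLA (F ^ s') hPs hF f] at h2
      show galP l (hL3 _ hPs) i (galA l hF i f) = f
      rw [← h2]
      have h3 : ∀ (g : Om ≃+* Om) (hg : g = 1) (hgP : PF D g), galP l hgP i f = f := by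
        intro g hg hgP
        subst hg
        exact hLo hgP f
      exact h3 _ (inv_mul_cancel _) _
    have h2 := congrArg (fun A : VA D l i →ₗ[ℚ_[l]] VA D l i => bs A (e t : WA D l i)) h1
    simp only [bs, LinearMap.baseChange_comp, LinearMap.baseChange_id, LinearMap.comp_apply, LinearMap.id_apply] at h2
    have h3 := he t
    rw [h0, zero_smul] at h3
    rw [h3, map_zero] at h2
    have h4 : e t = 0 := Subtype.ext h2.symm
    exact e.ne_zero t h4
  have hbinj : Function.Injective fun t => jq (b t) := by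
    intro t t' htt
    by_contra hne
    have h1 : b t = b t' := jq.injective htt
    have h2 : c t = c t' := by rw [← hb t, ← hb t', h1]
    have h3 := hrel (Pi.single t 1 - Pi.single t' 1) (by
      intro j
      have hw1 : (1 : ℤ) ≤ w := by exact_mod_cast hw
      rw [Pi.sub_apply]
      by_cases h5 : j = t
      · subst h5
        rw [Pi.single_eq_same, Pi.single_eq_of_ne hne]
        simpa using hw1
      · rw [Pi.single_eq_of_ne h5]
        by_cases h6 : j = t'
        · subst h6
          rw [Pi.single_eq_same]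
          simpa using hw1
        · rw [Pi.single_eq_of_ne h6]
          simp) (by
      simp only [Pi.sub_apply, Finset.sum_sub_distrib]
      simp) (by
      have h4 : ∀ j, c j ^ (Pi.single t (1 : ℤ) - Pi.single t' (1 : ℤ) : Fin (D.n i) → ℤ) j =
          (if j = t then c t else 1) * (if j = t' then (c t')⁻¹ else 1) := by
        intro j
        rw [Pi.sub_apply, zpow_sub₀ (hc0 j), div_eq_mul_inv]
        congr 1
        · by_cases h5 : j = t
          · subst h5
            rw [Pi.single_eq_same, if_pos rfl, zpow_one]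
          · rw [Pi.single_eq_of_ne h5, if_neg h5, zpow_zero]
        · by_cases h5 : j = t'
          · subst h5
            rw [Pi.single_eq_same, if_pos rfl, zpow_one]
          · rw [Pi.single_eq_of_ne h5, if_neg h5, zpow_zero, inv_one]
      rw [Finset.prod_congr rfl fun j _ => h4 j, Finset.prod_mul_distrib, Finset.prod_ite_eq' Finset.univ t,
        Finset.prod_ite_eq' Finset.univ t', if_pos (Finset.mem_univ _), if_pos (Finset.mem_univ _), h2,
        mul_inv_cancel₀ (hc0 t')])
    have h4 := congrFun h3 t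
    rw [Pi.sub_apply, Pi.single_eq_same, Pi.single_eq_of_ne hne] at h4
    simp at h4
  refine ⟨F, u, hPF F hF1, hPF u hu1, v, s', hs'0, ⟨D.n i * M0, by rw [hs', mul_assoc]⟩, hFu, ?_, ?_⟩
  · intro f hf
    obtain ⟨f', hf', h⟩ := hlat f hf
    refine ⟨f', hf', ?_⟩
    rw [← h]
    exact hGA u (hPF u hu1) hu f
  · intro c' x y hx hy hxc hyc
    rw [hpow'] at hxc hyc
    exact PL2_li _ _ v' _ _ hbinj hv' c' x y hx hy hxc hyc

end

end Pool.Agent.TI
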