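import Pool.Agent.helper46.TD.All
import Pool.Agent.helper25.FJ.E2
import Pool.Agent.helper47.TFQ.All
import Pool.Agent.helper85.AQ.All
import Pool.Agent.helper60.TI.AP2
import Pool.Agent.helper57.TI.AVG
import Pool.Agent.helper28.TI.BIG
import Pool.Agent.helper2.TI.CYC
import Pool.Agent.helper6.TI.DES
import Pool.Agent.helper53.TI.DTU
import Pool.Agent.helper39.TI.EGV
import Pool.Agent.helper20.TI.ELN
import Pool.Agent.helper61.TI.FD1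
import Pool.Agent.helper61.TI.FD2
import Pool.Agent.helper27.TI.FD3
import Pool.Agent.helper27.TI.FD4
import Pool.Agent.helper90.TI.FD5
import Pool.Agent.helper23.TI.FDT
import Pool.Agent.helper68.TI.FPW
import Pool.Agent.helper49.TI.GC
import Pool.Agent.helper24.TI.GDC
import Pool.Agent.helper49.TI.GNK
import Pool.Agent.helper57.TI.GS
import Pool.Agent.helper53.TI.NRA
import Pool.Agent.helper26.TI.NRM
import Pool.Agent.helper34.TI.PER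
import Pool.Agent.helper28.TI.PIJ
import Pool.Agent.helper54.TI.ROU
import Pool.Agent.helper3.TI.SPN
import Pool.Agent.helper52.TI.SUY
import Pool.Agent.helper74.TI.WCI
import Pool.Agent.helper11.TI.WCO
import Pool.Agent.helper29.TI.AP1
import Pool.Agent.helper78.TI.AP3
import Pool.Agent.helper69.TI.APD
import Pool.Agent.helper24.TI.CNJ
import Pool.Agent.helper22.TI.FDN
import Pool.Agent.helper45.TI.GPL
import Pool.Agent.helper17.TI.LH1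
import Pool.Agent.helper55.TI.REL
import Pool.Agent.helper22.TI.GFR
import Pool.Agent.helper23.TI.LF1
import Pool.Agent.helper64.TI.LF2
import Pool.Agent.helper72.TI.GFD
import Pool.Agent.helper72.TI.GDF
import Pool.Agent.helper50.TI.TRF
import Pool.Agent.helper90.TI.TRD
import Pool.Agent.helper23.TI.PL1
import Pool.Agent.helper63.TI.PL2

/-!
# Project ti (MP_3703a7_ag, A+): assembly of the closed statements
-/

set_option autoImplicit false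

namespace Pool.Agent.TIAll

theorem t_AP2 : Pool.Agent.TI.AP2_stmt := Pool.Agent.TI.AP2
theorem t_AVG : Pool.Agent.TI.AVG_stmt := Pool.Agent.TI.AVG
theorem t_BIG : Pool.Agent.TI.BIG_stmt := Pool.Agent.TI.BIG Pool.Agent.TKAll.t_DD Pool.Agent.TKAll.t_R4 Pool.Agent.TKAll.t_R5 Pool.Agent.TKAll.t_T1 Pool.Agent.TKAll.t_T3 Pool.Agent.TKAll.t_T4 Pool.Agent.TKAll.t_T6 Pool.Agent.TKAll.t_L1 Pool.Agent.TKAll.t_L5 Pool.Agent.TKAll.t_L8 Pool.Agent.TKAll.t_L9 Pool.Agent.TKAll.t_U2 Pool.Agent.TKAll.t_U3 Pool.Agent.TKAll.t_U4 Pool.Agent.TKAll.t_U5 Pool.Agent.TKAll.t_U6 Pool.Agent.TKAll.t_U7 Pool.Agent.TKAll.t_U8 Pool.Agent.TKAll.t_U9 Pool.Agent.TKAll.t_V2 Pool.Agent.TKAll.t_S2g Pool.Agent.TKAll.t_S3 Pool.Agent.TKAll.t_S4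
theorem t_CYC : Pool.Agent.TI.CYC_stmt := Pool.Agent.TI.CYC
theorem t_DES : Pool.Agent.TI.DES_stmt := Pool.Agent.TI.DES
theorem t_DTU : Pool.Agent.TI.DTU_stmt := Pool.Agent.TI.DTU Pool.Agent.AQAll.t_LDE
theorem t_EGV : Pool.Agent.TI.EGV_stmt := Pool.Agent.TI.EGV
theorem t_ELN : Pool.Agent.TI.ELN_stmt := Pool.Agent.TI.ELN
theorem t_FD1 : Pool.Agent.TI.FD1_stmt := Pool.Agent.TI.FD1
theorem t_FD2 : Pool.Agent.TI.FD2_stmt := Pool.Agent.TI.FD2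
theorem t_FD3 : Pool.Agent.TI.FD3_stmt := Pool.Agent.TI.FD3
theorem t_FD4 : Pool.Agent.TI.FD4_stmt := Pool.Agent.TI.FD4
theorem t_FD5 : Pool.Agent.TI.FD5_stmt := Pool.Agent.TI.FD5 Pool.Agent.TKAll.t_KE5
theorem t_FDT : Pool.Agent.TI.FDT_stmt := Pool.Agent.TI.FDT
theorem t_FPW : Pool.Agent.TI.FPW_stmt := Pool.Agent.TI.FPW
theorem t_GC : Pool.Agent.TI.GC_stmt := Pool.Agent.TI.GC Pool.Agent.TDAll.t_LM
theorem t_GDC : Pool.Agent.TI.GDC_stmt := Pool.Agent.TI.GDC Pool.Agent.TDAll.t_LC Pool.Agent.TDAll.t_VF Pool.Agent.TDAll.t_NBK Pool.Agent.TKAll.t_DD Pool.Agent.TQ.t_NB1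
theorem t_GNK : Pool.Agent.TI.GNK_stmt := Pool.Agent.TI.GNK Pool.Agent.TDAll.t_NBK Pool.Agent.TQ.t_NC2 Pool.Agent.TDAll.t_VF Pool.Agent.TKAll.t_DD
theorem t_GS : Pool.Agent.TI.GS_stmt := Pool.Agent.TI.GS Pool.Agent.TFQAll.t_QG1
theorem t_NRA : Pool.Agent.TI.NRA_stmt := Pool.Agent.TI.NRA
theorem t_NRM : Pool.Agent.TI.NRM_stmt := Pool.Agent.TI.NRM Pool.Agent.AQAll.t_BGP Pool.Agent.TQ.t_NB1 Pool.Agent.TDAll.t_NBK Pool.Agent.TQ.t_NC2 Pool.Agent.TDAll.t_VF Pool.Agent.TKAll.t_DD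
theorem t_PER : Pool.Agent.TI.PER_stmt := Pool.Agent.TI.PER t_EGV
theorem t_PIJ : Pool.Agent.TI.PIJ_stmt := Pool.Agent.TI.PIJ
theorem t_ROU : Pool.Agent.TI.ROU_stmt := Pool.Agent.TI.ROU
theorem t_SPN : Pool.Agent.TI.SPN_stmt := Pool.Agent.TI.SPN t_DES Pool.Agent.AQAll.t_LDE Pool.Agent.AQAll.t_LSK
theorem t_SUY : Pool.Agent.TI.SUY_stmt := Pool.Agent.TI.SUY t_SPN Pool.Agent.TKAll.t_L9 Pool.Agent.TQ.t_NB1 Pool.Agent.TKAll.t_DD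
theorem t_WCI : Pool.Agent.TI.WCI_stmt := Pool.Agent.TI.WCI t_CYC Pool.Agent.AQAll.t_BRF Pool.Agent.AQAll.t_BGP
theorem t_WCO : Pool.Agent.TI.WCO_stmt := Pool.Agent.TI.WCO Pool.Agent.AQAll.t_BGP Pool.Agent.AQAll.t_LDE Pool.Agent.TDAll.t_VF Pool.Agent.TDAll.t_NBK Pool.Agent.TKAll.t_DD
theorem t_AP1 : Pool.Agent.TI.AP1_stmt := Pool.Agent.TI.AP1 t_NRA
theorem t_AP3 : Pool.Agent.TI.AP3_stmt := Pool.Agent.TI.AP3 t_AP1 Pool.Agent.TQ.t_NA1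
theorem t_APD : Pool.Agent.TI.APD_stmt := Pool.Agent.TI.APD t_AP1 t_AP2 t_AP3 t_BIG Pool.Agent.TQ.t_NB1 Pool.Agent.TKAll.t_DD
theorem t_CNJ : Pool.Agent.TI.CNJ_stmt := Pool.Agent.TI.CNJ t_NRA Pool.Agent.AQAll.t_BGP Pool.Agent.TQ.t_NB1 Pool.Agent.TKAll.t_DD
theorem t_FDN : Pool.Agent.TI.FDN_stmt := Pool.Agent.TI.FDN t_FD1 t_FD2 t_FD3 t_FD4 t_FD5 t_FDT Pool.Agent.FJ.E2
theorem t_GPL : Pool.Agent.TI.GPL_stmt := Pool.Agent.TI.GPL t_GS t_PIJ Pool.Agent.TFQAll.t_QB2 Pool.Agent.TFQAll.t_QCF Pool.Agent.TFQAll.t_QP3 Pool.Agent.TDAll.t_LP Pool.Agent.TDAll.t_VF Pool.Agent.TDAll.t_NBK Pool.Agent.TKAll.t_DD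
theorem t_LH1 : Pool.Agent.TI.LH1_stmt := Pool.Agent.TI.LH1 t_APD t_CNJ t_AVG t_SUY t_NRA Pool.Agent.AQAll.t_BGP Pool.Agent.TQ.t_NB1 Pool.Agent.TKAll.t_DD
theorem t_REL : Pool.Agent.TI.REL_stmt := Pool.Agent.TI.REL t_ROU
theorem t_GFR : Pool.Agent.TI.GFR_stmt := Pool.Agent.TI.GFR t_FDN t_GC t_GNK t_GDC t_GPL Pool.Agent.TFQAll.t_QPL Pool.Agent.TFQAll.t_QB2 Pool.Agent.TFQAll.t_QCF Pool.Agent.TQ.t_NC3 Pool.Agent.TKAll.t_T7 Pool.Agent.TDAll.t_LP Pool.Agent.TDAll.t_VF Pool.Agent.TDAll.t_NBK Pool.Agent.FJ.E4 Pool.Agent.TKAll.t_DD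
theorem t_LF1 : Pool.Agent.TI.LF1_stmt := Pool.Agent.TI.LF1 t_LH1 t_REL t_PER t_ELN t_NRM t_FDN t_NRA Pool.Agent.FJ.E4 Pool.Agent.TQ.t_NB1 Pool.Agent.TKAll.t_DD
theorem t_LF2 : Pool.Agent.TI.LF2_stmt := Pool.Agent.TI.LF2 t_SUY t_AVG t_REL t_PER t_ELN t_NRM t_APD t_CNJ t_FDN t_NRA Pool.Agent.AQAll.t_BGP Pool.Agent.AQAll.t_LDE Pool.Agent.TKAll.t_T7 Pool.Agent.TQ.t_NB1 Pool.Agent.TKAll.t_DD
theorem t_GFD : Pool.Agent.TI.GFD_stmt := Pool.Agent.TI.GFD t_GFR Pool.Agent.TDAll.t_NT1 Pool.Agent.TDAll.t_DC Pool.Agent.TKAll.t_T7 Pool.Agent.TDAll.t_LP Pool.Agent.TDAll.t_VF Pool.Agent.TDAll.t_NBK Pool.Agent.TKAll.t_DD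
theorem t_GDF : Pool.Agent.TI.GDF_stmt := Pool.Agent.TI.GDF t_GFD t_GPL Pool.Agent.TDAll.t_LP Pool.Agent.TDAll.t_VF Pool.Agent.TDAll.t_NBK Pool.Agent.FJ.E4 Pool.Agent.TKAll.t_DD
theorem t_TRF : Pool.Agent.TI.TRF_stmt := Pool.Agent.TI.TRF t_GDF t_DTU Pool.Agent.TFQAll.t_QB2 Pool.Agent.TFQAll.t_QCF Pool.Agent.TDAll.t_VF Pool.Agent.TDAll.t_NBK Pool.Agent.TDAll.t_LP Pool.Agent.AQAll.t_LDE Pool.Agent.AQAll.t_LMU Pool.Agent.TKAll.t_DD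
theorem t_TRD : Pool.Agent.TI.TRD_stmt := Pool.Agent.TI.TRD t_TRF Pool.Agent.TFQAll.t_QPL Pool.Agent.FJ.E4
theorem t_PL1 : Pool.Agent.TI.PL1_stmt := Pool.Agent.TI.PL1 t_TRD t_LF1
theorem t_PL2 : Pool.Agent.TI.PL2_stmt := Pool.Agent.TI.PL2 t_TRD t_LF2 t_FPW Pool.Agent.AQAll.t_BGP Pool.Agent.TKAll.t_T7

end Pool.Agent.TIAll
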