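import Pool.Agent.helper47.TK.SpecP

/-!
# Project ti (MP_3703a7_ag, rows ta:F*): THE DENSITY THEOREM OF FROBENIUS FOR ONE CYCLIC EXTENSION

THE GOAL (FDN): `S0`, `S1` finite sets of algebraic numbers, `Fx S` = the automorphisms of `ℚbar` fixing `S`; `N` a normal subgroup of `Fx S0` containing `Fx S1`; for every `σ0 ∈ Fx S0` there are a place `O` of residue characteristic `p`, prime to any given number,
and a Frobenius element `F ∈ Fx S0` (`x ↦ x^p` on the residue field, so of degree one) with `F^v ∈ σ0 N` for some `v` (so `F` and `σ0` generate the same subgroup of `Fx S0 / N`).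
The proof uses only the pole of the zeta functions of number fields (TK.KE5_stmt): for `M = ℚ(β)` and almost all `p` the number `nid M p` of the ideals of norm `p` is the number of conjugates of `β` fixed by a Frobenius `φ` at a place over `p` (FD1, FD2), and inclusion - exclusion
over the subfields of a cyclic extension (FD3).

Rules: every `XX_stmt` is proved in `Pool/Agent/<seat>/TI/XX.lean`: `import Pool.Agent.helper63.TI.SpecF`, `set_option autoImplicit false`, `namespace Pool.Agent.TI`, the open lines of this file, `noncomputable section`,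
`theorem XX (h : YY_stmt) ... : XX_stmt`; hypotheses: other statements of the project (not circularly) and ANY proved statement of the older projects (`TK.KE5_stmt`, `FJ.E2_stmt`, ..). Auxiliary lemmas are prefixed `XX_`. No sorry, no double quotes, no `congr!`, no `convert`.
If a statement is false or awkward: tell helper63 at once.
-/

set_option autoImplicit false

namespace Pool.Agent.TI

open Polynomial NumberField Pool.Agent.GJ Pool.Agent.TK
open Pool.Agent.FJ (VT Om chiO IsFrobO rf rs)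
open scoped NumberField Topology

noncomputable section

/-- the automorphisms fixing the elements of `S` -/
def Fx (S : Finset Om) : Subgroup (Om ≃+* Om) where
  carrier := {σ | ∀ x ∈ S, σ x = x}
  mul_mem' := by
    intro σ τ h h' x hx
    show σ (τ x) = x
    rw [h' x hx, h x hx]
  one_mem' := fun _ _ => rfl
  inv_mem' := by
    intro σ h x hx
    show σ.symm x = x
    rw [RingEquiv.symm_apply_eq, h x hx]

/-- FD1 (medium). IDEALS OF PRIME NORM AND ROOTS MODULO `p`. There is `D > 0` with `D 𝓞_M ⊂ ℤ[β]` (`𝓞_M` is finitely generated and every element of `M = ℚ(β)` times an integer is in `ℤ[β]`; see KE6: `Pool/Agent/*/TK/KE6.lean`, which has this). `p ∤ D`. (a) Ideals of norm `p` ↔ ring homomorphisms `h : 𝓞_M → ZMod p`: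
`I ↦ 𝓞_M → 𝓞_M ⧸ I ≅ ZMod p` (a ring with `p` elements: `ZMod.ringEquivOfPrime` or `ZMod.ringEquiv`), `h ↦ ker h` (homomorphisms to `ZMod p` are surjective; two homomorphisms with the same kernel are equal, as `h x = a` iff `x - a ∈ ker h` for `a ∈ ℕ`). (b) `h ↦ h β` is a bijection onto the roots of `minpoly ℤ β` in `ZMod p`: injective:
`D x = g(β)`, `h(x) = D⁻¹ g(h β)`; surjective: a root `a` gives `ℤ[β] ≅ ℤ[X] ⧸ (minpoly) → ZMod p` (`minpoly.aeval_eq_zero..`; `Algebra.adjoin` / `AdjoinRoot` / `minpoly.equivAdjoin`), extended by `x ↦ D⁻¹ h(D x)` (multiplicative: `D^2 x y = (D x) (D y)`). -/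
def FD1_stmt : Prop := ∀ (M : Type) [Field M] [NumberField M] (β : 𝓞 M),
  Algebra.adjoin ℚ {(β : M)} = ⊤ → ∃ D : ℕ, 0 < D ∧ ∀ p : ℕ, p.Prime → ¬ p ∣ D →
    nid M p = Nat.card {a : ZMod p // aeval a (minpoly ℤ β) = 0}

/-- FD2 (short-medium). ROOTS MODULO `p` AND FROBENIUS. `Δ` = an integer `≠ 0` divisible (in the ring of algebraic integers) by all differences `x - x'` of different roots of `f` in `Om` (the discriminant, or the norm of the product of the differences, or a multiple in `ℤ` of the algebraic integer `∏ (x - x')`: every algebraic integer `≠ 0` divides a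
nonzero integer). `D = |Δ|`, `p ∤ D`: the roots are integral, so in `O` (`O` is integrally closed), and their reductions are different (a difference in the maximal ideal would give `rs Δ = 0`). `f = ∏ (X - x)` over `Om`, so over `O` and over `rf O`: the roots of `f` in `rf O` are the `rs x`. The roots in `ZMod p` ↔ the roots `y` in `rf O`
with `y^p = y` (`PL1_bot` in `Pool/Agent/helper33/TK/PL1.lean`). `φ x` is a root and `rs (φ x) = (rs x)^p`: `(rs x)^p = rs x` iff `rs (φ x) = rs x` iff `φ x = x`. -/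
def FD2_stmt : Prop := ∀ f : ℤ[X], f.Monic → (f.map (Int.castRingHom ℚ)).Separable → ∃ D : ℕ, 0 < D ∧
  ∀ (p : ℕ) [Fact p.Prime] (O : ValuationSubring Om) [CharP (rf O) p] (φ : Om ≃+* Om), IsFrobO O φ p → ¬ p ∣ D →
    Nat.card {a : ZMod p // aeval a f = 0} = Nat.card {x : Om // aeval x f = 0 ∧ φ x = x}

/-- FD3 (short-medium). INCLUSION - EXCLUSION. `H = ⋃_k c^k N` is a group in which `N` is normal, `H ⧸ N` is cyclic of order `n`. For every `g` the sum over `d ∣ n` of `μ(d)` for which `g⁻¹ φ g ∈ ⋃_k c^(d k) N` is `1` or `0`: if `g⁻¹ φ g ∉ H` all terms are zero (and the right side too); if `g⁻¹ φ g ∈ c^k N` then it is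
in `⋃_j c^(d j) N` iff `d ∣ k` (`c^(k - d j) ∈ N` iff `n ∣ k - d j`, `d ∣ n`), and `∑_(d ∣ gcd(k, n)) μ(d) = [gcd(k, n) = 1]` (`ArithmeticFunction.sum_moebius..`, `moebius_mul_coe_zeta`). Exchange the sums. -/
def FD3_stmt : Prop := ∀ (G : Type) [Group G] [Finite G] (N : Subgroup G) (c φ : G) (n : ℕ), 0 < n →
  (∀ x ∈ N, c * x * c⁻¹ ∈ N) → (∀ x ∈ N, c⁻¹ * x * c ∈ N) → (∀ k : ℤ, c ^ k ∈ N ↔ (n : ℤ) ∣ k) →
  ∑ d ∈ n.divisors, ArithmeticFunction.moebius d *
    (Nat.card {g : G // ∃ k : ℤ, (c ^ (d * k))⁻¹ * (g⁻¹ * φ * g) ∈ N} : ℤ) =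
  (Nat.card {g : G // ∃ k : ℤ, IsCoprime k (n : ℤ) ∧ (c ^ k)⁻¹ * (g⁻¹ * φ * g) ∈ N} : ℤ)

/-- FD4 (short). FIXED POINTS ON AN ORBIT. `g ↦ g β` is onto the orbit with fibres of `|Stab|` elements; `φ g β = g β` iff `g⁻¹ φ g ∈ Stab β`. -/
def FD4_stmt : Prop := ∀ (G X : Type) [Group G] [Finite G] [MulAction G X] (β : X) (φ : G),
  Nat.card {g : G // g⁻¹ * φ * g ∈ MulAction.stabilizer G β} =
    Nat.card (MulAction.stabilizer G β) * Nat.card {x : X // x ∈ MulAction.orbit G β ∧ φ • x = x}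

/-- FD5 (short-medium). ANALYSIS. TK.KE5_stmt for the `M d`, `d ∣ n`: `∑_p (∑_d (μ(d)/d) nid (M d) p) p^(-s) = - (∑_d μ(d)/d) log (s - 1) + O(1)` for `s → 1`, `s > 1`; `∑_(d ∣ n) μ(d)/d = φ(n)/n > 0` (or `∏_(p ∣ n) (1 - 1/p)`: multiplicativity; `Nat.totient_eq_mul_prod_factors`, `ArithmeticFunction` identities);
the finitely many `p ∣ D` contribute `O(1)`. So the left side is bounded above and the right side tends to infinity. -/
def FD5_stmt : Prop := ∀ (n D : ℕ) (M : ℕ → Type) [∀ d, Field (M d)] [∀ d, NumberField (M d)], 0 < n → 0 < D →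
  ∃ p : ℕ, p.Prime ∧ ¬ p ∣ D ∧
    0 < ∑ d ∈ n.divisors, ((ArithmeticFunction.moebius d : ℤ) : ℝ) / d * (nid (M d) p : ℝ)

/-- FDT (short). CONJUGATE PLACES. `O' = O.comap g` (`ValuationSubring.comap` for `g` as a ring homomorphism): `x ∈ O'` iff `g x ∈ O`, and `x` is in the maximal ideal iff `g x` is (units: `x` and `x⁻¹` in the ring). `g ((g⁻¹ φ g) x) = φ (g x)`. -/
def FDT_stmt : Prop := ∀ (O : ValuationSubring Om) (p : ℕ) [Fact p.Prime] [CharP (rf O) p] (φ g : Om ≃+* Om), IsFrobO O φ p →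
  ∃ (O' : ValuationSubring Om) (_ : CharP (rf O') p), IsFrobO O' (g⁻¹ * φ * g) p

/-- FDN (medium-long, the assembly). THE DENSITY THEOREM. `Γ = Om ≃+* Om`. `S'` = all roots in `Om` of the minimal polynomials over `ℚ` of the elements of `S1`: finite, stable under `Γ`; `N' = Fx S'` is normal in `Γ`, of finite index (`Γ ⧸ N'` acts faithfully on `S'`), `N' ≤ Fx S1 ≤ N`. `n` = the least `n > 0` with `σ0^n ∈ N`
(exists: `Γ ⧸ N'` is finite). For `d ∣ n`: `H_d = {h | ∃ k : ℤ, σ0^(-d k) h ∈ N}`, a subgroup (`σ0` normalises `N`) containing `N'`, `[H_1 : H_d] = d`. `M_d` = the field fixed by `H_d`, finite over `ℚ`, `H_d` = the group of `M_d` (`PL1_gal` in `Pool/Agent/helper33/TK/PL1.lean` for `L = ⊥`), `β_d` an integral primitive element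
of `M_d` (`Field.exists_primitive_element`, times an integer): the stabiliser of `β_d` in `Γ` is `H_d`; the roots of its minimal polynomial are its orbit under `Γ` (`minpoly.exists_algEquiv_of_root` or similar), and they are fixed by `N'` (normal). (For `d ∤ n` let `M_d = ℚ`.) `D` = `D0` times the numbers of FD1 (for `M_d`, `β_d`) and FD2 (for the
minimal polynomial `minpoly ℤ β_d`). FD5: `p ∤ D` with `∑ (μ(d)/d) nid M_d p > 0`. FJ.E2_stmt for `L = ⊥`, `P` = the ideal generated by `p` (norm `p`): `O`, `φ`, `CharP (rf O) p` (as in `PL1_arith`). `nid M_d p` = the number of points of the orbit of `β_d` fixed by `φ` (FD1, FD2) = `#{g ∈ Γ ⧸ N' | g⁻¹ φ g ∈ H_d} / |H_d ⧸ N'|` (FD4), and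
`|H_d ⧸ N'| = |H_1 ⧸ N'| / d`. So `0 < ∑ μ(d) #{g | g⁻¹ φ g ∈ H_d}`, and FD3 (in `Γ ⧸ N'`) gives `g ∈ Γ` and `k` prime to `n` with `σ0^(-k) g⁻¹ φ g ∈ N`. `F = g⁻¹ φ g ∈ Fx S0`, `O'` from FDT. `v > 0` with `v k = 1` modulo `n`: `F^v σ0⁻¹ ∈ N`. Uses FD1 - FD5, FDT, TK.KE5_stmt (in FD5), FJ.E2_stmt. -/
def FDN_stmt : Prop := ∀ (S0 S1 : Finset Om) (N : Subgroup (Om ≃+* Om)), N ≤ Fx S0 →
  (∀ g ∈ Fx S0, ∀ x ∈ N, g * x * g⁻¹ ∈ N) → Fx S1 ≤ N → ∀ σ0 ∈ Fx S0, ∀ D0 : ℕ, 0 < D0 →
  ∃ (p : ℕ) (_ : Fact p.Prime) (O : ValuationSubring Om) (_ : CharP (rf O) p) (F : Om ≃+* Om) (v : ℕ),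
    F ∈ Fx S0 ∧ IsFrobO O F p ∧ ((D0 : ℕ) : rf O) ≠ 0 ∧ 0 < v ∧ F ^ v * σ0⁻¹ ∈ N

end

end Pool.Agent.TI
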