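import Pool.Agent.helper47.TFQ.Spec
import Pool.Agent.helper63.TI.SpecF
import Pool.Agent.helper46.TD.SpecN

/-!
# Project ti (MP_3703a7_ag, rows ta:G*): THE DETERMINANT OF EVERY FROBENIUS OVER EVERY FINITE FIELD ON `V_q(J_a)`

THE GOAL (GDF): `q` any prime, `a` any branch points. There is `w > 0` such that for almost all places `O` and EVERY automorphism `σ` which fixes the `a_j` and the `l`-th roots of unity and is the `Q`-th power on the residue field of `O` (`Q = p^M`), the determinant `x` of `σ` on `V_q(J_a)` over `ℚ_q(Z)` satisfies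
`x^w = ((-1)^n c_n(Z))^w`, where `c_n` is the last coefficient of the relation `∑ c_d(Z) σ^(n-d) = 0` (TFQ.QB2). No condition on `σ` (it may have equal eigenvalues).

THE PROOF. For the curves `y^l = x^a (x - 1)^(k a mod l)` (`n = 1`: `V_q` has rank one over `ℚ_q(Z)`, `g` acts by a scalar `κ_(a,k)(g)`) the relation QB2 says that `κ_(a,k)(σ)` is a Jacobi sum at EVERY place; Gauss sums (GS): `c_n^l ∏_k J(S, k) = Q^n ∏_j ∏_k J(μ_j, k)`, `S = ∑ μ_j`. On the other side the determinant is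
a homomorphism, it does not depend on `a` up to torsion (TD.DC_stmt), for suitable rational `a'` there is a cyclic element `h` (TD.NT1_stmt), and for all `g` near the identity `h g` is cyclic too; the Frobenius elements near `h g` (FDN) are cyclic (TQ.NC3_stmt), so their determinants are given by the relation. So
`ψ(g) = x^l ∏_k κ_(S,k) / (χ(g)^n ∏_j ∏_k κ_(μ_j,k))` is torsion for all `g` (GFR, GFD), in particular for all Frobenius elements, and this gives their determinants up to torsion.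

Rules: every `XX_stmt` is proved in `Pool/Agent/<seat>/TI/XX.lean`: `import Pool.Agent.helper63.TI.SpecG`, `set_option autoImplicit false`, `namespace Pool.Agent.TI`, the open lines of this file, `noncomputable section`,
`theorem XX (h : YY_stmt) ... : XX_stmt`; hypotheses: other statements of the project (not circularly) and ANY proved statement of the older projects (`TFQ.QB2_stmt`, `TFQ.QB3_stmt`, `TFQ.QCF_stmt`, `TFQ.QG1_stmt`, `TFQ.QP3_stmt`, `TD.LC_stmt`, `TD.LP_stmt`, `TD.VF_stmt`, `TD.NBK_stmt`, `TD.DC_stmt`, `TD.NT1_stmt`, `TQ.NC2_stmt`, `TQ.NC3_stmt`, ..).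
Auxiliary lemmas are prefixed `XX_`. No sorry, no double quotes, no `congr!`, no `convert`. If a statement is false or awkward: tell helper63 at once.
-/

set_option autoImplicit false

namespace Pool.Agent.TI

open Polynomial NumberField Pool.Agent.GJ Pool.Agent.TK Pool.Agent.TQ Pool.Agent.TFQ Pool.Agent.TD
open Pool.Agent.FJ (VT Om chiO IsFrobO rf rs)

noncomputable section

/-! ## The Jacobi curves -/

/-- the weights `(a, k a mod l)` -/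
def muJ (l a k : ℕ) : Fin (1 + 1) → ℕ := ![a, (k * a) % l]

/-- the branch points `0`, `1` -/
def aJ : Fin (1 + 1) → Om := ![0, 1]

theorem goodJ {l a k : ℕ} [Fact l.Prime] (ha : 0 < a) (hal : a < l) (hk : 0 < k) (hkl : k + 1 < l) :
    Good Om l (muJ l a k) aJ := by
  have hl : l.Prime := Fact.out
  have h1 : ¬ l ∣ a := Nat.not_dvd_of_pos_of_lt ha hal
  have h2 : ¬ l ∣ k := Nat.not_dvd_of_pos_of_lt hk (by omega)
  have h3 : ¬ l ∣ k + 1 := Nat.not_dvd_of_pos_of_lt (by omega) hkl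
  refine ⟨?_, ?_, ?_, ?_⟩
  · intro i j hij
    fin_cases i <;> fin_cases j <;> simp_all [aJ]
  · intro j
    fin_cases j
    · exact ha
    · show 0 < (k * a) % l
      refine Nat.pos_of_ne_zero fun h => ?_
      rcases (hl.dvd_mul).1 (Nat.dvd_of_mod_eq_zero h) with h | h
      · exact h2 h
      · exact h1 h
  · intro j
    fin_cases j
    · exact hal
    · exact Nat.mod_lt _ hl.pos
  · show ¬ l ∣ ∑ j : Fin 2, muJ l a k j
    rw [Fin.sum_univ_two]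
    show ¬ l ∣ a + (k * a) % l
    intro h
    have h4 : l ∣ a + k * a := by
      rw [Nat.dvd_iff_mod_eq_zero] at h ⊢
      rw [Nat.add_mod, Nat.mod_mod] at h
      rw [Nat.add_mod]
      exact h
    have h5 : a + k * a = (k + 1) * a := by ring
    rw [h5] at h4
    rcases (hl.dvd_mul).1 h4 with h | h
    · exact h3 h
    · exact h1 h

theorem fixJ (g : Om ≃+* Om) : ∀ j, g (aJ j) = aJ j := by
  intro j
  fin_cases j
  · show g 0 = 0
    exact map_zero g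
  · show g 1 = 1
    exact map_one g

/-- `x` is the scalar by which `g` acts on `V_q` of the Jacobi curve `(a, k)` (`0 < a < l`, `0 < k < l - 1`) -/
def IsKap (l q : ℕ) [Fact l.Prime] [Fact q.Prime] (s : rootsOfUnity l Om) (g : Om ≃+* Om) (a k : ℕ) (x : Fl q l) : Prop :=
  ∀ _ : Good Om l (muJ l a k) aJ,
    IsDet l (zK q s : Module.End ℚ_[q] (VT q (JC Om l (muJ l a k) aJ))) (VT.map q (actA g (fixJ g) 1)) x

/-- the polynomials `P d ∈ ℤ[X]` of TFQ.QCF_stmt (for coefficients `ℚ_q`) -/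
structure IsPol {l n : ℕ} [Fact l.Prime] (μ : Fin (n + 1) → ℕ) (a : Fin (n + 1) → Om) [Good Om l μ a] (q : ℕ) [Fact q.Prime]
    {F : Type} [Field F] [Fintype F] [DecidableEq F] (χ : MulChar F Om) (A : Fin (n + 1) → F) (s : rootsOfUnity l Om)
    (P : ℕ → ℤ[X]) : Prop where
  zero : P 0 = 1
  ev : ∀ d, aeval ((s : Omˣ) : Om) (P d) = ∑ c ∈ Gq A d, (∏ j, χ ((gq c).eval (A j)) ^ μ j)⁻¹
  op : ∀ d, cfQ (l := l) μ a q χ A d =
    aeval (zK q s : Module.End ℚ_[q] (VT q (JC Om l μ a))) ((P d).map (Int.castRingHom ℚ_[q]))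

/-- `σ` is cyclic on `V_q(J_a)` over `ℚ_q(Z)` -/
def Cyc {l n : ℕ} [Fact l.Prime] {μ : Fin (n + 1) → ℕ} {a : Fin (n + 1) → Om} [Good Om l μ a] (q : ℕ) [Fact q.Prime]
    (g : Module.End ℚ_[q] (VT q (JC Om l μ a))) : Prop :=
  ∃ t, ∀ W : Submodule ℚ_[q] (VT q (JC Om l μ a)),
    (∀ (s : rootsOfUnity l Om), ∀ w ∈ W, zK q s w ∈ W) → (∀ w ∈ W, g w ∈ W) → t ∈ W → W = ⊤

/-- GS (medium). GAUSS SUMS. `g_a` = `gaussSum (χ^(m a)) ψ`, `ψ` a primitive additive character of `F` with values in `Om` (as in TFQ.QG2: `Pool/Agent/*/TFQ/QG2.lean`). For `0 < a < l`: `χ^(m (k a % l)) = χ^(m k a)` (`χ^l = 1`), `χ(-1) = 1` (`χ(-1)^2 = 1 = χ(-1)^l`, `l` odd), so QG1 for `n = 1` says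
`J(a, k) g_((k+1) a) = g_a g_(k a)` for `0 < k < l - 1` (`χ^(m (a + k a)) ≠ 1`); the `g_(k a)`, `l ∤ k a`, are not zero (`gaussSum_mul_gaussSum_eq_card`: `g_a g_(-a) = χ^(m a)(-1) Q = Q`). The product over `0 < k < l - 1`: `∏_k J(a, k) g_((l-1) a) = g_a^(l-2) g_a`, so `Q ∏_k J(a, k) = g_a^l`. QG1 for `μ`: `c (∏ χ(lam_j)^(m μ_j)) g_S = ∏_j g_(μ_j)`
(`S = ∑ μ_j`, or modulo `l`); `l`-th powers (`χ(lam_j)^l = 1`): `c^l Q ∏_k J(S, k) = Q^(n+1) ∏_j ∏_k J(μ_j, k)`. Cancel `Q ≠ 0` in `Om`. Uses QG1. -/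
def GS_stmt : Prop := ∀ (F : Type) [Field F] [Fintype F] [DecidableEq F] (l : ℕ) (χ : MulChar F Om) (n : ℕ)
  (μ : Fin (n + 1) → ℕ) (lam : Fin (n + 1) → F) (m : ℕ), l.Prime → 2 < l → orderOf χ = l →
  (∀ j, 0 < μ j ∧ μ j < l) → ¬ l ∣ ∑ j, μ j → (∀ j, lam j ≠ 0) → 0 < m → m < l →
  cJQ χ μ lam m ^ l * ∏ k ∈ Finset.Ico 1 (l - 1), cJQ χ (muJ l ((∑ j, μ j) % l) k) ![-1, 1] m =
    (cq F : Om) ^ n * ∏ j, ∏ k ∈ Finset.Ico 1 (l - 1), cJQ χ (muJ l (μ j) k) ![-1, 1] m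

/-- PIJ (short). THE SAME PLACE for the Jacobi curves: only `fix` (`fixJ`), `int` (`0`, `1`) and `inj` (`0 ≠ 1`) are new. -/
def PIJ_stmt : Prop := ∀ (l n : ℕ) [Fact l.Prime] (a : Fin (n + 1) → Om) (F : Type) [Field F] [Fintype F] [DecidableEq F] (α : ℕ)
  (O : ValuationSubring Om) (e : F →+* rf O) (χ : MulChar F Om) (σ : Om ≃+* Om) (A : Fin (n + 1) → F),
  IsPlQ (l := l) a α O e χ σ A → IsPlQ (l := l) aJ α O e χ σ (![0, 1] : Fin (1 + 1) → F)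

/-- GDC (short-medium). THE DETERMINANT OF A CYCLIC FROBENIUS. TD.LC_stmt with `c d = (P d).map ..` and `Z = zK q s` (free of rank `n`: TD.VF_stmt for `K = Om`, see the proof of TD.NTF (`grep -l NTF_stmt Pool/Agent/*/TD/NTF.lean`) for the embedding `Om → ℂ` and `Countable Om`; `∑ Z^i = 0`, commutation: TD.NBK_stmt). A subspace stable under `Z = zK q s` is stable under all
`zK q s'` (`s' = s^j`, `zK q (s^j) = (zK q s)^j`). -/
def GDC_stmt : Prop := ∀ (l n q : ℕ) [Fact l.Prime] [Fact q.Prime], l ≠ 2 → 0 < n → ∀ (μ : Fin (n + 1) → ℕ) (a : Fin (n + 1) → Om)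
  [Good Om l μ a] (F : Type) [Field F] [Fintype F] [DecidableEq F] (χ : MulChar F Om) (A : Fin (n + 1) → F)
  (σ : Om ≃+* Om) (hσ : ∀ j, σ (a j) = a j), (∀ x : Om, x ^ l = 1 → σ x = x) → ∀ (s : rootsOfUnity l Om), Prim s →
  ∀ P : ℕ → ℤ[X], IsPol μ a q χ A s P →
  ∑ d ∈ Finset.range (n + 1), cfQ (l := l) μ a q χ A d *
    (VT.map q (actA σ hσ (1 : rootsOfUnity l Om)) : Module.End ℚ_[q] (VT q (JC Om l μ a))) ^ (n - d) = 0 →
  Cyc (μ := μ) (a := a) q (VT.map q (actA σ hσ (1 : rootsOfUnity l Om))) →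
  IsDet l (zK q s : Module.End ℚ_[q] (VT q (JC Om l μ a))) (VT.map q (actA σ hσ 1))
    ((-1) ^ n * fl ((P n).map (Int.castRingHom ℚ_[q])))

/-- GPL (medium). THE IDENTITY AT EVERY PLACE. `hPJ` = PIJ. For `0 < a < l`, `0 < k < l - 1` (`goodJ`, Dedekind: GJ.DD_stmt or TK.KA4_stmt; `V_q` of rank one, so finite dimensional: TD.VF_stmt) TFQ.QB2_stmt for `(muJ l a k, aJ)` (`D0` = the product of its numbers) and TFQ.QCF_stmt (polynomials `P^(a,k)`): `σ + P^(a,k)_1(Z) = 0` on `V_q`; a rank one module: cyclic, or directly LP (5th part):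
`IsDet σ (- fl P^(a,k)_1)`, so `y a k = - fl P^(a,k)_1` by uniqueness (LP; `σ` commutes with `Z`). `ev` and TFQ.QP3_stmt: `aeval s (P^(a,k)_1) = cJQ χ (muJ l a k) (lm ![0,1]) (l - 1)` (`(χ(w)^μ)⁻¹ = χ(w)^((l-1) μ)` for `w ≠ 0`, and both products are zero if some `w_j = 0`), `lm ![0,1] = ![-1, 1]`, and the same for `P n` with `lm A`. GS for `m = l - 1`, `lam = lm A`:
an equality in `Om` of values at `s` of polynomials in `ℤ[X]`; the minimal polynomial of `s` over `ℚ` is `Φ_l` (`cyclotomic_eq_minpoly_rat`), so the difference is divisible by `Φ_l` in `ℚ[X]` (or `ℤ[X]`: `cyclotomic_eq_minpoly`) and its image in `Fl q l` is zero. SIGNS: `((-1)^n)^l ∏_k (-1) = (-1)^(n + l - 2)` and `∏_j ∏_k (-1) = (-1)^((n+1)(l-2))`: both are `(-1)^(n+1)`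
as `l` is odd. Uses GS, PIJ, QB2, QCF, QP3, LP, VF, NBK. -/
def GPL_stmt : Prop := ∀ (l n q : ℕ) [Fact l.Prime] [Fact q.Prime], l ≠ 2 → ∀ (μ : Fin (n + 1) → ℕ) (a : Fin (n + 1) → Om)
  [Good Om l μ a], ∃ D0 : ℕ, 0 < D0 ∧
  ∀ (p M α : ℕ) [Fact p.Prime] (F : Type) [Field F] [Fintype F] [DecidableEq F]
    (O : ValuationSubring Om) [CharP (rf O) p] (e : F →+* rf O) (χ : MulChar F Om) (σ : Om ≃+* Om) (A : Fin (n + 1) → F),
  IsPlQ (l := l) a α O e χ σ A → cq F = p ^ M → ((D0 : ℕ) : rf O) ≠ 0 → ∀ s : rootsOfUnity l Om, Prim s →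
  ∀ P : ℕ → ℤ[X], IsPol μ a q χ A s P → ∀ y : ℕ → ℕ → Fl q l,
  (∀ b k, 0 < b → b < l → 0 < k → k + 1 < l → IsKap l q s σ b k (y b k)) →
  ((-1) ^ n * fl ((P n).map (Int.castRingHom ℚ_[q])) : Fl q l) ^ l * ∏ k ∈ Finset.Ico 1 (l - 1), y ((∑ j, μ j) % l) k =
    (cq F : Fl q l) ^ n * ∏ j, ∏ k ∈ Finset.Ico 1 (l - 1), y (μ j) k

/-- GC (medium). CONTINUITY OF THE DETERMINANT. `𝓑` = the subring of the `fl P`, `P` with coefficients in `ℤ_q` (`‖P.coeff i‖ ≤ 1`), a finitely generated `ℤ_q`-module spanned by `1, ζ, .., ζ^(l-2)` (`Φ_l` is monic with integral coefficients). `B k` = the units `x` with `x - 1 ∈ q^(k+1) 𝓑` (a subgroup: `𝓑` is complete, or `x⁻¹`: `1 + q^(k+1) b` is a unit of `𝓑`: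
`𝓑` is integral over `ℤ_q` and `q` is in its Jacobson radical; then `x⁻¹ - 1 = - x⁻¹ (x - 1)`). The intersection of the `q^(k+1) 𝓑` is zero (coordinates). Let `v_k`, `b` be a basis as in `IsFreeZ`, scaled so that `v_k ∈ T`; `T0 = ∑ 𝓑 v_k ⊂ T`, `q^c T ⊂ T0`; if `g = 1` modulo `q^N` on `T`, `N = c + k + 1`, the matrix of `g` in the basis `v` is `1` modulo `q^(N-c) 𝓑`,
so its determinant is in `1 + q^(k+1) 𝓑`. As in the proof of TD.LBD (`grep -l LBD_stmt Pool/Agent/*/TD/LBD.lean`: copy its lemmas). -/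
def GC_stmt : Prop := ∀ (q l : ℕ) [Fact q.Prime] [Fact l.Prime], ∃ B : ℕ → Subgroup (Fl q l)ˣ, (∀ x, (∀ k, x ∈ B k) → x = 1) ∧
  (∀ k, ∃ N : ℕ, ∀ (c : ℚ_[q]) (x : (Fl q l)ˣ), ‖c - 1‖ ≤ ‖(q : ℚ_[q]) ^ N‖ → (x : Fl q l) = fl (C c) → x ∈ B k) ∧
  ∀ (V : Type) [AddCommGroup V] [Module ℚ_[q] V] (T : AddSubgroup V) (Z : Module.End ℚ_[q] V) (n : ℕ), Lat q T →
  (∀ t ∈ T, Z t ∈ T) → IsFreeZ l n Z → ∑ i ∈ Finset.range l, Z ^ i = 0 → ∀ k, ∃ N : ℕ, ∀ (g : Module.End ℚ_[q] V) (x : (Fl q l)ˣ),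
  g * Z = Z * g → (∀ t ∈ T, ∃ t' ∈ T, g t - t = (q : ℚ_[q]) ^ N • t') → IsDet l Z g (x : Fl q l) → x ∈ B k

/-- GNK (medium). SMALL SUBGROUPS. `T`, `T_(b,k)` from NBK. `N` = the set of the `g ∈ Fx S0` which are `1` modulo `q^K` on `T` and on all `T_(b,k)` and fix all `x` with `x^(q^K) = 1` (so `chiO q g = 1` modulo `q^K`: the cyclotomic character modulo `q^K` is given by the action on these roots of unity, see `Pool/Agent/*/FJ/E4.lean` or Mathlib `cyclotomicCharacter`). A subgroup, normal in `Fx S0`: NBK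
(homomorphisms, the lattices are stable). `S1`: the roots of unity of order `q^K`, and for every curve a basis over `ℚ` of the field `L'` of TQ.NC2_stmt (an automorphism fixing a basis fixes `L'`), and `S0`. `S0` contains the `a_j`. -/
def GNK_stmt : Prop := ∀ (l n q : ℕ) [Fact l.Prime] [Fact q.Prime], l ≠ 2 → 0 < n → ∀ (μ : Fin (n + 1) → ℕ) (a : Fin (n + 1) → Om)
  [Good Om l μ a] (S0 : Finset Om), (∀ j, a j ∈ S0) → (∀ x : Om, x ^ l = 1 → x ∈ S0) → ∀ K : ℕ,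
  ∃ (N : Subgroup (Om ≃+* Om)) (S1 : Finset Om), N ≤ Fx S0 ∧ (∀ g ∈ Fx S0, ∀ x ∈ N, g * x * g⁻¹ ∈ N) ∧ Fx S1 ≤ N ∧
  ∀ g ∈ N, ‖chiO q g - 1‖ ≤ ‖(q : ℚ_[q]) ^ K‖ ∧
    (∀ (h : ∀ j, g (a j) = a j) (f : VT q (JC Om l μ a)), (∀ z : ℤ_[q], f.val (z : ℚ_[q]) = 0) →
      ∃ f' : VT q (JC Om l μ a), (∀ z : ℤ_[q], f'.val (z : ℚ_[q]) = 0) ∧
        VT.map q (actA g h (1 : rootsOfUnity l Om)) f - f = (q : ℚ_[q]) ^ K • f') ∧
    ∀ b k, 0 < b → b < l → 0 < k → k + 1 < l → ∀ (_ : Good Om l (muJ l b k) aJ) (f : VT q (JC Om l (muJ l b k) aJ)),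
      (∀ z : ℤ_[q], f.val (z : ℚ_[q]) = 0) →
      ∃ f' : VT q (JC Om l (muJ l b k) aJ), (∀ z : ℤ_[q], f'.val (z : ℚ_[q]) = 0) ∧
        VT.map q (actA g (fixJ g) (1 : rootsOfUnity l Om)) f - f = (q : ℚ_[q]) ^ K • f'

/-- GFR (medium-long). `ψ` IS TORSION if there is a cyclic element `h`. `S0` = the `a_j` and the `l`-th roots of unity; `T` = the lattice of `V = V_q(J_a)` (NBK). All operators commute with `Z`; `IsDet` exists, is unique and multiplicative (LP; VF: free), and `x(g)` is a unit of `Fl` (`g g⁻¹ = 1`). `ψ(g) = x(g)^l ∏_k κ_(S,k)(g) / (χ(g)^n ∏_j ∏_k κ_(μ_j,k)(g))` is a homomorphism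
`Fx S0 → Flˣ`. `K0` = the number `K` of TQ.NC3_stmt for `σ = h`, `I = rootsOfUnity l Om`, `Z s = zK q s` (`T` is stable). `N0` = GNK for `K0`, with `S1`; `w` = the number `m` of GJ.T7_stmt for `S1`: `g^w ∈ N0` for all `g ∈ Fx S0`. CLAIM: `ψ(h g^w) = 1` for all `g ∈ Fx S0`. By GC it is in all `B k`: let `K ≥ K0` be so large that `ψ(ν) ∈ B k` for all `ν ∈ N_K` (GNK for `K`;
GC for `V` and all `V_(b,k)`, and for `χ`). FDN for `S0`, `S1`, `N_K`, `σ0 = h g^w`, `D0` = `q` times the numbers of QB2 for `(μ, a)`, of GPL and of QPL for the datum with the single curve `(μ, a)`: `F^v = ν h g^w`, `ν ∈ N_K`, so `F^v = h` modulo `q^K0` on `T`: `F` is cyclic (NC3). QPL (`M = 1`): `IsPlQ`; QCF: `IsPol`; QB2 and GDC: `x(F) = (-1)^n fl (P n)`; GPL: `x(F)^l ∏ κ_S = p^n ∏ ∏ κ`, and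
`χ(F) = p` (FJ.E4_stmt; `cq F = p`): `ψ(F) = 1`, so `ψ(h g^w) = ψ(ν)⁻¹ ∈ B k`. CLAIM for `g = 1`: `ψ(h) = 1`, so `ψ(g)^w = ψ(g^w) = 1`. Uses FDN, GC, GNK, GDC, GPL, TFQ.QPL_stmt, TFQ.QB2_stmt, TFQ.QCF_stmt, TQ.NC3_stmt, GJ.T7_stmt, LP, VF, NBK, FJ.E4_stmt. -/
def GFR_stmt : Prop := ∀ (l n q : ℕ) [Fact l.Prime] [Fact q.Prime], l ≠ 2 → 0 < n → ∀ (μ : Fin (n + 1) → ℕ) (a : Fin (n + 1) → Om)
  [Good Om l μ a] (h : Om ≃+* Om) (hh : ∀ j, h (a j) = a j), (∀ x : Om, x ^ l = 1 → h x = x) →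
  Cyc (μ := μ) (a := a) q (VT.map q (actA h hh (1 : rootsOfUnity l Om))) → ∃ w : ℕ, 0 < w ∧
  ∀ (g : Om ≃+* Om) (hg : ∀ j, g (a j) = a j), (∀ x : Om, x ^ l = 1 → g x = x) → ∀ s : rootsOfUnity l Om, Prim s →
  ∀ (x : Fl q l) (y : ℕ → ℕ → Fl q l),
  IsDet l (zK q s : Module.End ℚ_[q] (VT q (JC Om l μ a))) (VT.map q (actA g hg 1)) x →
  (∀ b k, 0 < b → b < l → 0 < k → k + 1 < l → IsKap l q s g b k (y b k)) →
  (x ^ l * ∏ k ∈ Finset.Ico 1 (l - 1), y ((∑ j, μ j) % l) k) ^ w =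
    ((fl (C (chiO q g)) : Fl q l) ^ n * ∏ j, ∏ k ∈ Finset.Ico 1 (l - 1), y (μ j) k) ^ w

/-- GFD (medium). THE SAME FOR ALL BRANCH POINTS. TD.NT1_stmt for the datum with the single curve `(μ, a)` (`k = 1`, `e = 1`, `r = 0`): `a'` with `CycG`, so `h` as in GFR for `a'` (`TQ.galA`, `TQ.zA` are `VT.map q (actA ..)` by definition). TD.DC_stmt for `a`, `a'`: `S`, `w1`; `m` = the number of GJ.T7_stmt for `S`: `g^m` fixes `S` (so the `a'_j`). GFR for `a'` and `g^m`: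
`w2`. With `x'` the determinant of `g^m` on `V_q(J_(a'))`: `x^(m w1) = x'^(w1)` (LP: `x^m` is the determinant of `g^m` on `V_q(J_a)`), `y^m` for `g^m`, `χ(g^m) = χ(g)^m`. `w = m w1 w2`. -/
def GFD_stmt : Prop := ∀ (l n q : ℕ) [Fact l.Prime] [Fact q.Prime], l ≠ 2 → 0 < n → ∀ (μ : Fin (n + 1) → ℕ) (a : Fin (n + 1) → Om)
  [Good Om l μ a], ∃ w : ℕ, 0 < w ∧
  ∀ (g : Om ≃+* Om) (hg : ∀ j, g (a j) = a j), (∀ x : Om, x ^ l = 1 → g x = x) → ∀ s : rootsOfUnity l Om, Prim s →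
  ∀ (x : Fl q l) (y : ℕ → ℕ → Fl q l),
  IsDet l (zK q s : Module.End ℚ_[q] (VT q (JC Om l μ a))) (VT.map q (actA g hg 1)) x →
  (∀ b k, 0 < b → b < l → 0 < k → k + 1 < l → IsKap l q s g b k (y b k)) →
  (x ^ l * ∏ k ∈ Finset.Ico 1 (l - 1), y ((∑ j, μ j) % l) k) ^ w =
    ((fl (C (chiO q g)) : Fl q l) ^ n * ∏ j, ∏ k ∈ Finset.Ico 1 (l - 1), y (μ j) k) ^ w

/-- GDF (short-medium). THE DETERMINANT OF EVERY FROBENIUS. GFD (`w`) for `g = σ`, `y b k` from LP (`goodJ`; outside the range `0`), GPL: `(x^l ∏ y_S)^w = (χ(σ)^n ∏ ∏ y)^w = (Q^n ∏ ∏ y)^w = (((-1)^n fl (P n))^l ∏ y_S)^w` (`χ(σ) = p^M = cq F`: FJ.E4_stmt, `q ≠ 0` in `rf O`; `D0` = `q` times the number of GPL); the `y_S` are units (`IsDet` of `σ⁻¹`, LP). The result with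
`l w`. -/
def GDF_stmt : Prop := ∀ (l n q : ℕ) [Fact l.Prime] [Fact q.Prime], l ≠ 2 → 0 < n → ∀ (μ : Fin (n + 1) → ℕ) (a : Fin (n + 1) → Om)
  [Good Om l μ a], ∃ w D0 : ℕ, 0 < w ∧ 0 < D0 ∧
  ∀ (p M α : ℕ) [Fact p.Prime] (F : Type) [Field F] [Fintype F] [DecidableEq F]
    (O : ValuationSubring Om) [CharP (rf O) p] (e : F →+* rf O) (χ : MulChar F Om) (σ : Om ≃+* Om) (A : Fin (n + 1) → F)
    (hP : IsPlQ (l := l) a α O e χ σ A), cq F = p ^ M → ((D0 : ℕ) : rf O) ≠ 0 → ∀ s : rootsOfUnity l Om, Prim s →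
  ∀ P : ℕ → ℤ[X], IsPol μ a q χ A s P → ∀ x : Fl q l,
  IsDet l (zK q s : Module.End ℚ_[q] (VT q (JC Om l μ a))) (VT.map q (actA σ hP.fix 1)) x →
  x ^ w = ((-1) ^ n * fl ((P n).map (Int.castRingHom ℚ_[q])) : Fl q l) ^ w

end

end Pool.Agent.TI
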