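import Pool.Agent.helper63.TI.SpecG
import Pool.Agent.helper85.AQ.Defs
import Pool.Agent.helper39.GJ.SpecU

/-!
# Project ti (MP_3703a7_ag): THE TWO RESULTS ON FROBENIUS ELEMENTS, for every prime `q` (statements; the rows ta:* for their proofs are in `SpecA.lean`)

`D` a family of curves for which the monodromy theorem of project gj holds (`Ind`, `Sep`); every curve has an automorphism `φ_i ∈ Aut(ℚbar/ℚ(ζ_l))` with the property `WC` (for instance a Frobenius element at an Eisenstein prime). `q` is ANY prime number.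

PL1: there is a Frobenius element `F` (over a prime field, fixing all branch points) whose eigenvalues on the spaces `E_(i,r) ⊂ Ω_q ⊗ V_q(J_i)` have no multiplicative relations with exponents at most `B`, apart from those between `Q` and the products over `t` (`AQ.GenA` for all powers `F^M`).

PL2: for every `K` and every `s0` there is an automorphism `F` over `ℚ(ζ_l)` such that a power of `F` is `φ u`, `u` in the congruence subgroup of level `q^K`, and some `F^s'`, `s0 ∣ s'`, has no repeated eigenvalue on `E_(i,r)`.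

THE PROOF: `F` is constructed as a Frobenius element close to a given element of the group in the `l`-ADIC topology (project gj: the `l`-adic image is large), and its eigenvalues are known on `V_l`. The eigenvalues on `V_q` are the same algebraic numbers (relations TFQ.QB2 for `l` and `q`), with multiplicities given by GDF.
-/

set_option autoImplicit false

namespace Pool.Agent.TI

open Polynomial NumberField Pool.Agent.GJ Pool.Agent.TK Pool.Agent.TQ Pool.Agent.TFQ Pool.Agent.TD Pool.Agent.AQ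
open Pool.Agent.FJ (VT Om chiO IsFrobO rf rs)
open scoped TensorProduct

noncomputable section

/-- the lattice `T_q(J_i)` in `V_q(J_i)` -/
def TZ {l : ℕ} [Fact l.Prime] (D : Dat l) (q : ℕ) [Fact q.Prime] (i : Fin D.k) : AddSubgroup (VA D q i) where
  carrier := {f | ∀ z : ℤ_[q], f.val (z : ℚ_[q]) = 0}
  add_mem' := by
    intro f g hf hg z
    rw [VT.add_val, hf z, hg z, add_zero]
  zero_mem' := fun z => VT.zero_val _
  neg_mem' := by
    intro f hf z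
    rw [VT.neg_val, hf z, neg_zero]

/-- `H = 1 + q^N Y` modulo `q^(N + m)` on the lattice `T` -/
def Nr {q : ℕ} [Fact q.Prime] {V : Type} [AddCommGroup V] [Module ℚ_[q] V] (T : AddSubgroup V) (H Y : V →ₗ[ℚ_[q]] V) (N m : ℕ) : Prop :=
  ∀ t ∈ T, ∃ t' ∈ T, H t = t + (q : ℚ_[q]) ^ N • Y t + (q : ℚ_[q]) ^ (N + m) • t'

/-- `Ω_q ⊗ V_q(J_i)` -/
abbrev WA {l : ℕ} [Fact l.Prime] (D : Dat l) (q : ℕ) [Fact q.Prime] (i : Fin D.k) : Type := PadicAlgCl q ⊗[ℚ_[q]] VA D q i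

/-- the operator `1 ⊗ A` on `Ω_q ⊗ V` -/
abbrev bs {q : ℕ} [Fact q.Prime] {V : Type} [AddCommGroup V] [Module ℚ_[q] V] (A : V →ₗ[ℚ_[q]] V) :
    PadicAlgCl q ⊗[ℚ_[q]] V →ₗ[PadicAlgCl q] PadicAlgCl q ⊗[ℚ_[q]] V := LinearMap.baseChange (PadicAlgCl q) A

/-- the eigenspace of `1 ⊗ [s]` for `ζ^r` in `Ω_q ⊗ V_q(J_i)` -/
abbrev ES {l : ℕ} [Fact l.Prime] (D : Dat l) (q : ℕ) [Fact q.Prime] (i : Fin D.k) (s : rootsOfUnity l Om) (ζ : PadicAlgCl q) (r : ℕ) :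
    Submodule (PadicAlgCl q) (WA D q i) := eg (bs (zA D q i s)) ζ r

/-- `φ` fixes the `l`-th roots of unity (and permutes the branch points of all curves); on every eigenspace of `ζ` in `Ω_l ⊗ V_l(J_i)` it is diagonal with different eigenvalues `ξ_t`, and `ξ_t^(n_i)` does not depend on `t` -/
def WC {l : ℕ} [Fact l.Prime] (D : Dat l) (i : Fin D.k) (φ : Om ≃+* Om) : Prop :=
  ∃ h : PF D φ, ∀ s : rootsOfUnity l Om, Prim s → ∀ ζ : PadicAlgCl l, IsPrimitiveRoot ζ l → ∀ r : ℕ, 0 < r → r < l →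
    ∃ (κ : PadicAlgCl l) (ξ : Fin (D.n i) → PadicAlgCl l) (u : Module.Basis (Fin (D.n i)) (PadicAlgCl l) (ES D l i s ζ r)),
      κ ≠ 0 ∧ Function.Injective ξ ∧ (∀ t, ξ t ^ D.n i = κ) ∧ ∀ t, bs (galP l h i) (u t : WA D l i) = ξ t • (u t : WA D l i)

/-- PL1: A FROBENIUS ELEMENT WITH INDEPENDENT EIGENVALUES -/
def PL1_stmt : Prop := ∀ (l q : ℕ) [Fact l.Prime] [Fact q.Prime], l ≠ 2 → ∀ D : Dat l, (∀ i, 0 < D.n i) → D.Ind → D.Sep →
  (∀ σ : Om ≃+* Om, (∀ x : Om, x ^ l = 1 → σ x = x) → PF D σ) →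
  ∀ θ : ∀ i, ExteriorAlgebra ℚ_[l] (VA D l i), TQ.IsOK D θ → (∀ i, ∃ φ, WC D i φ) →
  ∀ (B : ℕ) (jq : Om →+* PadicAlgCl q) (s : rootsOfUnity l Om), Prim s →
  ∃ (F : Om ≃+* Om) (hF : D.Fix F) (Q : ℕ)
    (v : ∀ i, ∀ r : Fin ((l - 1) / 2), Module.Basis (Fin (D.n i)) (PadicAlgCl q) (ES D q i s (jq ((s : Omˣ) : Om)) ((r : ℕ) + 1)))
    (α : ∀ i, Fin ((l - 1) / 2) → Fin (D.n i) → PadicAlgCl q),
    (∀ x : Om, x ^ l = 1 → F x = x) ∧ 0 < Q ∧ chiO q F = (Q : ℚ_[q]) ∧ (∀ i r t, α i r t ≠ 0) ∧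
    (∀ i r t, bs (galA q hF i) (v i r t : WA D q i) = α i r t • (v i r t : WA D q i)) ∧
    ∀ (x : ∀ i, Fin ((l - 1) / 2) → Fin (D.n i) → ℤ) (c' : ℤ) (M : ℕ), (∀ i r t, |x i r t| ≤ B) → |c'| ≤ B → 0 < M →
      ((∏ i, ∏ r, ∏ t, α i r t ^ x i r t) * (Q : PadicAlgCl q) ^ c') ^ M = 1 → ∀ i r t t', x i r t = x i r t'

/-- PL2: NO REPEATED EIGENVALUES -/
def PL2_stmt : Prop := ∀ (l q : ℕ) [Fact l.Prime] [Fact q.Prime], l ≠ 2 → ∀ D : Dat l, (∀ i, 0 < D.n i) → D.Ind → D.Sep →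
  (∀ σ : Om ≃+* Om, (∀ x : Om, x ^ l = 1 → σ x = x) → PF D σ) →
  ∀ θ : ∀ i, ExteriorAlgebra ℚ_[l] (VA D l i), TQ.IsOK D θ → ∀ (i : Fin D.k) (φ : Om ≃+* Om), WC D i φ →
  ∀ (jq : Om →+* PadicAlgCl q) (s : rootsOfUnity l Om), Prim s → ∀ (r : Fin ((l - 1) / 2)) (K s0 : ℕ), 0 < s0 →
  ∃ (F u : Om ≃+* Om) (hF : PF D F) (hu : PF D u) (r' s' : ℕ), 0 < s' ∧ s0 ∣ s' ∧ F ^ r' = φ * u ∧
    (∀ f ∈ TZ D q i, ∃ f' ∈ TZ D q i, galP q hu i f = f + (q : ℚ_[q]) ^ K • f') ∧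
    ∀ (c : PadicAlgCl q) (x y : WA D q i), x ∈ ES D q i s (jq ((s : Omˣ) : Om)) ((r : ℕ) + 1) → y ∈ ES D q i s (jq ((s : Omˣ) : Om)) ((r : ℕ) + 1) →
      ((bs (galP q hF i) : Module.End (PadicAlgCl q) (WA D q i)) ^ s') x = c • x →
      ((bs (galP q hF i) : Module.End (PadicAlgCl q) (WA D q i)) ^ s') y = c • y → ¬ LinearIndependent (PadicAlgCl q) ![x, y]

end

end Pool.Agent.TI
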